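import Mathlib.Tactic.Linarith.Frontend
import Mathlib.Data.Int.Interval
import Mathlib.Order.Circular
import Mathlib.Algebra.Field.ZMod
import Mathlib.Data.Int.ConditionallyCompleteOrder
import Mathlib.Data.Int.Star
import Mathlib.Data.Nat.Bitwise
import Mathlib.Data.LawfulXor.Basic
import Mathlib.GroupTheory.SpecificGroups.Dihedral
import Mathlib.Order.CompletePartialOrder
import Mathlib.Tactic.Algebra.Basic
import Pool.Agent.MP_7ebdba_gt.Base

-- ======== part 0: formerly Pool.Agent.MP_7ebdba_gt.ch.Defs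
section MrgPart0

/-! Interface between the topological and the geometric half of Part I. -/

namespace Pool.Agent.MP_7ebdba_gt.ch

section
variable {P : Type} [Group P]

/-- `X` lies in finitely many orbits of left multiplication by the powers of `g`. -/
def FinMod (g : P) (X : Set P) : Prop :=
  ∃ R : Finset P, ∀ x ∈ X, ∃ n : ℤ, ∃ r ∈ R, x = g ^ n * r

/-- invariant under `g` up to a constant, almost invariant on the right modulo `g`. -/
def AI0 (g : P) (s : P → ZMod 2) : Prop :=
  (∃ w, ∀ x, s (g * x) = s x + w) ∧ ∀ y, FinMod g {x | s (x * y) ≠ s x}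

/-- invariant under `g`, almost invariant on the right modulo `g`. -/
def AI (g : P) (s : P → ZMod 2) : Prop :=
  (∀ x, s (g * x) = s x) ∧ ∀ y, FinMod g {x | s (x * y) ≠ s x}

/-- `s` generates the almost invariant functions modulo `g`. -/
def Side (g : P) (s : P → ZMod 2) : Prop :=
  AI g s ∧ ∀ s1, AI0 g s1 → ∃ c e : ZMod 2, FinMod g {x | s1 x ≠ c + e * s x}

/-- the side function of `g` is constant along the steps `g` and `g1` off the line of `g`. -/
def Adj (g g1 : P) : Prop :=
  ∃ s, Side g s ∧ (∀ h, h ∉ Subgroup.zpowers g → s (h * g) = s h) ∧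
    ∀ h, h ∉ Subgroup.zpowers g → h * g1 ∉ Subgroup.zpowers g → s (h * g1) = s h

/-- adjacency in both directions. -/
def Adj2 (g g1 : P) : Prop := Adj g g1 ∧ Adj g1 g

end

/-- The output of the topological half. -/
def Chain (r : S 2 →* F2) : Prop :=
  ∃ g0 g1 g2 g3 x : S 2, g0 ≠ 1 ∧ g1 ≠ 1 ∧ g2 ≠ 1 ∧ g3 ≠ 1 ∧ x ≠ 1 ∧ r x = 1 ∧
    Adj2 g0 g1 ∧ Adj2 g1 g2 ∧ Adj2 g2 g3 ∧ Adj2 g3 (Phi g0) ∧
    ((Adj2 x g0 ∧ Adj2 x g1) ∨ (Adj2 x g2 ∧ Adj2 x g3))

/-- The topological half of Part I. -/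
def ChainStmt : Prop :=
  ∀ (r : S 2 →* F2) (T : Tri 3) (j : Fin 3), Iso (stab T j) (TT r) → Chain r

end Pool.Agent.MP_7ebdba_gt.ch

end MrgPart0

-- ======== part 1: formerly Pool.Agent.MP_7ebdba_gt.Meander
section MrgPart1

/-!
# The meander lemma

Two equivariant non-crossing matchings `B`, `T` of a circularly ordered set (cut open to a linear
order) whose alternating loops are finite have a `B`-chord and a `T`-chord such that no translate
of the first crosses the second.  The proof is by equivariant band moves.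
-/

namespace Meander7

section Order
variable {W : Type*} [LinearOrder W]

/-- `w` lies strictly between `x` and `y`. -/
def Btw (x y w : W) : Prop := (x < w ∧ w < y) ∨ (y < w ∧ w < x)

/-- the chords `x y` and `u v` have no common end and cross. -/
def Cross (x y u v : W) : Prop :=
  u ≠ x ∧ u ≠ y ∧ v ≠ x ∧ v ≠ y ∧ ¬ (Btw x y u ↔ Btw x y v)

theorem Cross.symm {x y u v : W} (h : Cross x y u v) : Cross u v x y := by
  unfold Cross Btw at *
  grind

theorem Cross.swap {x y u v : W} (h : Cross x y u v) : Cross x y v u := by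
  unfold Cross at *
  tauto

theorem Cross.flip {x y u v : W} (h : Cross x y u v) : Cross y x u v := by
  unfold Cross Btw at *
  tauto

theorem not_btw_left (x y : W) : ¬ Btw x y x := by
  unfold Btw
  simp

theorem not_btw_right (x y : W) : ¬ Btw x y y := by
  unfold Btw
  simp

theorem iff_of_not_cross {x y u v : W} (h : ¬ Cross x y u v) (h1 : u ≠ x) (h2 : u ≠ y)
    (h3 : v ≠ x) (h4 : v ≠ y) : Btw x y v ↔ Btw x y u := by
  by_contra hn
  exact h ⟨h1, h2, h3, h4, fun e => hn e.symm⟩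

theorem near {a b w w' u v : W} (h2 : Cross a b w w') (h3 : ¬ Cross w w' u v)
    (hu : u ≠ w) (hv : v ≠ w) (hu' : u ≠ w') (hv' : v ≠ w') :
    (a ≠ u ∧ a ≠ v ∧ (Btw u v a ↔ Btw u v w)) ∨ (b ≠ u ∧ b ≠ v ∧ (Btw u v b ↔ Btw u v w)) := by
  unfold Cross Btw at *
  grind (splits := 40)

theorem cross_a {a b w w' u v : W} (h1 : Cross a w u v) (h2 : Cross a b w w')
    (h3 : ¬ Cross w w' u v) (hu : u ≠ w') (hv : v ≠ w') : Cross a b u v := by
  have h1' := h1.symm
  have := near h2 h3 h1.2.1 h1.2.2.2.1 hu hv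
  apply Cross.symm
  unfold Cross at h1' ⊢
  tauto

theorem cross_b {a b w1 w1' w2 w2' u v : W} (h1 : Cross w1 w2 u v) (h2 : Cross a b w1 w1')
    (h2' : Cross a b w2 w2') (h3 : ¬ Cross w1 w1' u v) (h4 : ¬ Cross w2 w2' u v)
    (hu : u ≠ w1') (hv : v ≠ w1') (hu2 : u ≠ w2') (hv2 : v ≠ w2') : Cross a b u v := by
  have h1' := h1.symm
  have n1 := near h2 h3 h1.1 h1.2.2.1 hu hv
  have n2 := near h2' h4 h1.2.1 h1.2.2.2.1 hu2 hv2
  apply Cross.symm
  unfold Cross at h1' ⊢
  tauto

theorem cross_three {a b a' b' : W} (h : Cross a b a' b') : ¬ Cross a b' a' b := by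
  unfold Cross Btw at *
  grind (splits := 40)

/-- a chord that crosses `x z` and avoids `y` crosses `x y` or `y z`. -/
theorem cross_trans {x y z u v : W} (h : Cross x z u v) (hu : u ≠ y) (hv : v ≠ y) :
    Cross x y u v ∨ Cross y z u v := by
  have h' := h.symm
  by_cases hb : Btw u v x ↔ Btw u v y
  · right
    apply Cross.symm
    unfold Cross at h' ⊢
    tauto
  · left
    apply Cross.symm
    unfold Cross at h' ⊢
    tauto

open Classical in
/-- indicator with values in `ZMod 2`. -/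
noncomputable def ind (p : Prop) : ZMod 2 := if p then 1 else 0

theorem ind_pos {p : Prop} (h : p) : ind p = 1 := if_pos h

theorem ind_neg {p : Prop} (h : ¬ p) : ind p = 0 := if_neg h

theorem ind_congr {p q : Prop} (h : p ↔ q) : ind p = ind q := by rw [propext h]

theorem iff_of_ind {p q : Prop} (h : ind p + ind q = 0) : p ↔ q := by
  by_cases hp : p <;> by_cases hq : q
  · tauto
  · rw [ind_pos hp, ind_neg hq] at h
    exact absurd h (by decide)
  · rw [ind_neg hp, ind_pos hq] at h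
    exact absurd h (by decide)
  · tauto

theorem pos_id {u v s : W} (h : u ≠ v) :
    ind (s < u) + ind (s < v) = ind (Btw u v s) + ind (s = min u v) := by
  unfold Btw ind
  have h2 : (1 + 1 : ZMod 2) = 0 := by decide
  rcases lt_or_gt_of_ne h with h | h
  · rw [min_eq_left h.le]
    split_ifs <;> first | rfl | grind
  · rw [min_eq_right h.le]
    split_ifs <;> first | rfl | grind

/-- parity of the number of points of `S` below `x`. -/
noncomputable def pos (S : Finset W) (x : W) : ZMod 2 := ∑ s ∈ S, ind (s < x)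

/-- parity of the number of points of `S` between `u` and `v`. -/
noncomputable def cnt (S : Finset W) (u v : W) : ZMod 2 := ∑ s ∈ S, ind (Btw u v s)

theorem pos_add (S : Finset W) {u v : W} (h : u ≠ v) :
    pos S u + pos S v = cnt S u v + ind (min u v ∈ S) := by
  unfold pos cnt
  rw [← Finset.sum_add_distrib, Finset.sum_congr rfl fun s _ => pos_id h, Finset.sum_add_distrib]
  congr 1
  by_cases hm : min u v ∈ S
  · rw [ind_pos hm, Finset.sum_eq_single_of_mem _ hm fun s _ hs => ind_neg hs, ind_pos rfl]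
  · rw [ind_neg hm]
    refine Finset.sum_eq_zero fun s hs => ind_neg ?_
    rintro rfl
    exact hm hs

theorem pos_add_out (S : Finset W) {u v : W} (h : u ≠ v) (hu : u ∉ S) (hv : v ∉ S) :
    pos S u + pos S v = cnt S u v := by
  rw [pos_add S h, ind_neg, add_zero]
  rcases min_choice u v with e | e <;> rw [e] <;> assumption

theorem pos_add_in (S : Finset W) {u v : W} (h : u ≠ v) (hu : u ∈ S) (hv : v ∈ S) :
    pos S u + pos S v = cnt S u v + 1 := by
  rw [pos_add S h, ind_pos]
  rcases min_choice u v with e | e <;> rw [e] <;> assumption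

omit [LinearOrder W] in
theorem sum_inv (S : Finset W) (M : W → W) (hM : ∀ s ∈ S, M s ∈ S) (hMM : ∀ s ∈ S, M (M s) = s)
    (hne : ∀ s ∈ S, M s ≠ s) (f : W → ZMod 2) (hf : ∀ s ∈ S, f (M s) = f s) :
    ∑ s ∈ S, f s = 0 := by
  refine Finset.sum_involution (fun s _ => M s) (fun s hs => ?_) (fun s hs _ => hne s hs)
    (fun s hs => hM s hs) (fun s hs => hMM s hs)
  rw [hf s hs]
  exact CharTwo.add_self_eq_zero _

theorem sum_exc (S : Finset W) (M : W → W) (hM : ∀ s ∈ S, M s ∈ S) (hMM : ∀ s ∈ S, M (M s) = s)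
    (hne : ∀ s ∈ S, M s ≠ s) (f : W → ZMod 2) {a : W} (ha : a ∈ S)
    (hf : ∀ s ∈ S, s ≠ a → s ≠ M a → f (M s) = f s) :
    ∑ s ∈ S, f s = f a + f (M a) := by
  have hMa : M a ∈ S.erase a := Finset.mem_erase.2 ⟨hne a ha, hM a ha⟩
  rw [← Finset.add_sum_erase S f ha, ← Finset.add_sum_erase _ f hMa, ← add_assoc,
    sum_inv _ M, add_zero]
  · intro s hs
    simp only [Finset.mem_erase] at hs ⊢
    refine ⟨fun e => hs.2.1 ?_, fun e => hs.1 ?_, hM s hs.2.2⟩
    · rw [← hMM s hs.2.2, e, hMM a ha]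
    · rw [← hMM s hs.2.2, e]
  · intro s hs
    exact hMM s (Finset.mem_of_mem_erase (Finset.mem_of_mem_erase hs))
  · intro s hs
    exact hne s (Finset.mem_of_mem_erase (Finset.mem_of_mem_erase hs))
  · intro s hs
    simp only [Finset.mem_erase] at hs
    exact hf s hs.2.2 hs.2.1 hs.1

theorem zmod_eq {x y : ZMod 2} (h : x + y = 0) : y = x := by
  revert x y
  decide

theorem zmod_eq' {x y : ZMod 2} (h : x + y = 0 + 1) : y = x + 1 := by
  revert x y
  decide

end Order

/-- `x` and `y` lie on the same alternating loop. -/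
def Rel {W : Type*} (B T : W → W) : W → W → Prop :=
  Relation.ReflTransGen fun x y => y = B x ∨ y = T x

/-- two equivariant non-crossing matchings with finite loops, no loop being preserved by a
nontrivial group element. -/
structure Sys (P : Type*) {W : Type*} [Group P] [MulAction P W] [LinearOrder W]
    (B T : W → W) : Prop where
  invB : ∀ x, B (B x) = x
  invT : ∀ x, T (T x) = x
  neB : ∀ x, B x ≠ x
  neT : ∀ x, T x ≠ x
  eqB : ∀ (g : P) x, B (g • x) = g • B x
  eqT : ∀ (g : P) x, T (g • x) = g • T x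
  ncB : ∀ x u, ¬ Cross x (B x) u (B u)
  ncT : ∀ x u, ¬ Cross x (T x) u (T u)
  fin : ∀ x, {y | Rel B T x y}.Finite
  stab : ∀ (g : P) x, Rel B T x (g • x) → g = 1

section RelBasic
variable {W : Type*} {B T : W → W}

theorem Rel.rfl' (x : W) : Rel B T x x := Relation.ReflTransGen.refl

theorem Rel.tr {x y z : W} (h : Rel B T x y) (h' : Rel B T y z) : Rel B T x z :=
  Relation.ReflTransGen.trans h h'

theorem Rel.stepB {x y : W} (h : Rel B T x y) : Rel B T x (B y) :=
  Relation.ReflTransGen.tail h (Or.inl rfl)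

theorem Rel.stepT {x y : W} (h : Rel B T x y) : Rel B T x (T y) :=
  Relation.ReflTransGen.tail h (Or.inr rfl)

theorem Rel.ind {x : W} {p : W → Prop} (h0 : p x) (hB : ∀ y, Rel B T x y → p y → p (B y))
    (hT : ∀ y, Rel B T x y → p y → p (T y)) {y : W} (h : Rel B T x y) : p y := by
  induction h with
  | refl => exact h0
  | tail h1 h2 ih =>
    rcases h2 with rfl | rfl
    · exact hB _ h1 ih
    · exact hT _ h1 ih

end RelBasic

variable {P W : Type*} [Group P] [MulAction P W] [LinearOrder W] {B T : W → W}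

namespace Sys

theorem symm (h : Sys P B T) {x y : W} (hr : Rel B T x y) : Rel B T y x := by
  refine Rel.ind (p := fun y => Rel B T y x) (Rel.rfl' x) (fun y _ hy => ?_) (fun y _ hy => ?_) hr
  · have := (Rel.rfl' (B := B) (T := T) (B y)).stepB
    rw [h.invB] at this
    exact this.tr hy
  · have := (Rel.rfl' (B := B) (T := T) (T y)).stepT
    rw [h.invT] at this
    exact this.tr hy

theorem smul (h : Sys P B T) (g : P) {x y : W} (hr : Rel B T x y) : Rel B T (g • x) (g • y) := by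
  refine Rel.ind (p := fun y => Rel B T (g • x) (g • y)) (Rel.rfl' _) (fun y _ hy => ?_)
    (fun y _ hy => ?_) hr
  · rw [← h.eqB]
    exact hy.stepB
  · rw [← h.eqT]
    exact hy.stepT

theorem inj (h : Sys P B T) {g k : P} {x y : W} (hr : Rel B T x y) (e : g • x = k • y) :
    g = k ∧ x = y := by
  have e2 : y = (k⁻¹ * g) • x := by rw [mul_smul, e, inv_smul_smul]
  have := h.stab (k⁻¹ * g) x (e2 ▸ hr)
  have hg : g = k := by
    rw [inv_mul_eq_one] at this
    exact this.symm
  refine ⟨hg, ?_⟩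
  rw [e2, this, one_smul]

theorem eqB' (h : Sys P B T) {x y : W} (e : B x = y) : x = B y := by rw [← e, h.invB]

theorem eqT' (h : Sys P B T) {x y : W} (e : T x = y) : x = T y := by rw [← e, h.invT]

/-- the loop through `x` as a finite set. -/
noncomputable def loop (h : Sys P B T) (x : W) : Finset W := (h.fin x).toFinset

theorem mem_loop (h : Sys P B T) {x y : W} : y ∈ h.loop x ↔ Rel B T x y := by
  unfold loop
  simp

/-- no point of a finite set closed under a matching `M` changes side along a chord that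
crosses no `M`-chord of the set. -/
theorem pos_out (S : Finset W) (M : W → W) (hM : ∀ s ∈ S, M s ∈ S) (hMM : ∀ s ∈ S, M (M s) = s)
    (hne : ∀ s ∈ S, M s ≠ s) {u v : W} (huv : u ≠ v) (hu : u ∉ S) (hv : v ∉ S)
    (hx : ∀ s ∈ S, ¬ Cross u v s (M s)) : pos S v = pos S u := by
  apply zmod_eq
  rw [pos_add_out S huv hu hv]
  refine sum_inv S M hM hMM hne _ fun s hs => ind_congr (iff_of_not_cross (hx s hs) ?_ ?_ ?_ ?_)
  · rintro rfl
    exact hu hs
  · rintro rfl
    exact hv hs
  · intro e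
    exact hu (e ▸ hM s hs)
  · intro e
    exact hv (e ▸ hM s hs)

theorem pos_in (S : Finset W) (M : W → W) (hM : ∀ s ∈ S, M s ∈ S) (hMM : ∀ s ∈ S, M (M s) = s)
    (hne : ∀ s ∈ S, M s ≠ s) {u : W} (hu : u ∈ S)
    (hx : ∀ s ∈ S, ¬ Cross u (M u) s (M s)) : pos S (M u) = pos S u + 1 := by
  apply zmod_eq'
  rw [pos_add_in S (hne u hu).symm hu (hM u hu)]
  congr 1
  refine sum_inv S M hM hMM hne _ fun s hs => ind_congr ?_
  by_cases e1 : s = u
  · subst e1
    exact iff_of_false (not_btw_right _ _) (not_btw_left _ _)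
  by_cases e2 : s = M u
  · subst e2
    rw [hMM u hu]
    exact iff_of_false (not_btw_left _ _) (not_btw_right _ _)
  refine iff_of_not_cross (hx s hs) e1 e2 (fun e => e2 ?_) (fun e => e1 ?_)
  · rw [← e, hMM s hs]
  · rw [← hMM s hs, e, hMM u hu]

theorem adj_aux (h : Sys P B T) (hfin : ∀ a b : W, {w | Cross a b w (B w)}.Finite) (n : ℕ) :
    ∀ a b : W, Rel B T a b → b ≠ a → b ≠ B a → {w | Cross a b w (B w)}.ncard = n →
      ∃ a b : W, Rel B T a b ∧ b ≠ a ∧ b ≠ B a ∧ ∀ w, ¬ Cross a b w (B w) := by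
  induction n using Nat.strong_induction_on with
  | _ n ih =>
  intro a b hab h1 h2 hn
  by_cases hw : ∀ w, ¬ Cross a b w (B w)
  · exact ⟨a, b, hab, h1, h2, hw⟩
  push Not at hw
  obtain ⟨w, hw⟩ := hw
  by_cases hr : Rel B T a w
  · refine ih _ ?_ a w hr hw.1 (fun e => hw.2.2.1 (by rw [e, h.invB])) rfl
    rw [← hn]
    refine Set.ncard_lt_ncard ⟨fun u hu => ?_, fun hsub => ?_⟩ (hfin a b)
    · refine cross_a hu hw (h.ncB w u) (fun e => hu.2.2.2.1 ?_) (fun e => hu.2.1 ?_)
      · rw [e, h.invB]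
      · rw [h.eqB' e, h.invB]
    · exact (hsub hw).2.1 rfl
  · have hout : ∀ y, Rel B T a y → y ∉ h.loop w := fun y hy hm =>
      hr (hy.tr (h.symm (h.mem_loop.1 hm)))
    have hcB : ∀ s ∈ h.loop w, B s ∈ h.loop w := fun s hs =>
      h.mem_loop.2 (h.mem_loop.1 hs).stepB
    have hcT : ∀ s ∈ h.loop w, T s ∈ h.loop w := fun s hs =>
      h.mem_loop.2 (h.mem_loop.1 hs).stepT
    have hpos : pos (h.loop w) b = pos (h.loop w) a := by
      refine Rel.ind (p := fun y => pos (h.loop w) y = pos (h.loop w) a) rfl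
        (fun y hy e => ?_) (fun y hy e => ?_) hab
      · rw [← e]
        exact pos_out _ B hcB (fun s _ => h.invB s) (fun s _ => h.neB s) (h.neB y).symm
          (hout y hy) (hout _ hy.stepB) fun s _ => h.ncB y s
      · rw [← e]
        exact pos_out _ T hcT (fun s _ => h.invT s) (fun s _ => h.neT s) (h.neT y).symm
          (hout y hy) (hout _ hy.stepT) fun s _ => h.ncT y s
    have hcnt : cnt (h.loop w) a b = 0 := by
      rw [← pos_add_out _ h1.symm (hout a (Rel.rfl' a)) (hout b hab), hpos]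
      exact CharTwo.add_self_eq_zero _
    have hex : ∃ s, Rel B T w s ∧ s ≠ w ∧ s ≠ B w ∧ Cross a b s (B s) := by
      by_contra hno
      push Not at hno
      have := sum_exc (h.loop w) B hcB (fun s _ => h.invB s) (fun s _ => h.neB s)
        (fun s => ind (Btw a b s)) (h.mem_loop.2 (Rel.rfl' w)) fun s hs e1 e2 => by
          refine ind_congr (iff_of_not_cross (hno s (h.mem_loop.1 hs) e1 e2) ?_ ?_ ?_ ?_)
          · rintro rfl
            exact hout _ (Rel.rfl' _) hs
          · rintro rfl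
            exact hout _ hab hs
          · intro e
            exact hout _ (Rel.rfl' _) (e ▸ hcB s hs)
          · intro e
            exact hout _ hab (e ▸ hcB s hs)
      exact hw.2.2.2.2 (iff_of_ind (this.symm.trans hcnt))
    obtain ⟨s, hs, e1, e2, hsc⟩ := hex
    refine ih _ ?_ w s hs e1 e2 rfl
    rw [← hn]
    refine Set.ncard_lt_ncard ⟨fun u hu => ?_, fun hsub => ?_⟩ (hfin a b)
    · refine cross_b hu hw hsc (h.ncB w u) (h.ncB s u) (fun e => hu.2.2.1 ?_) (fun e => hu.1 ?_)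
        (fun e => hu.2.2.2.1 ?_) (fun e => hu.2.1 ?_)
      · rw [e, h.invB]
      · rw [h.eqB' e, h.invB]
      · rw [e, h.invB]
      · rw [h.eqB' e, h.invB]
    · exact (hsub hw).1 rfl

end Sys

/-- two `B`-chords of one loop that border a common region. -/
structure Adj {W : Type*} [LinearOrder W] (B T : W → W) (a b : W) : Prop where
  rel : Rel B T a b
  ne : b ≠ a
  ne' : b ≠ B a
  unc : ∀ w, ¬ Cross a b w (B w)
  par : ¬ Cross a b (B a) (B b)

theorem Sys.exists_adj (h : Sys P B T) (hfin : ∀ a b : W, {w | Cross a b w (B w)}.Finite)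
    {x : W} (hx : B x ≠ T x) : ∃ a b, Adj B T a b := by
  obtain ⟨a, b, hab, h1, h2, hw⟩ :=
    h.adj_aux hfin _ x (T x) (Rel.rfl' x).stepT (h.neT x) hx.symm rfl
  by_cases hp : Cross a b (B a) (B b)
  · refine ⟨a, B b, hab.stepB, fun e => h2 (h.eqB' e), fun e => h1 ?_, fun w hc => ?_, ?_⟩
    · rw [h.eqB' e, h.invB]
    · rcases cross_trans (y := b) hc (fun e => hc.2.2.2.1 (by rw [e])) (fun e => hc.2.1 (h.eqB' e))
        with h3 | h3
      · exact hw w h3
      · exact h.ncB b w h3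
    · rw [h.invB]
      exact cross_three hp
  · exact ⟨a, b, hab, h1, h2, hw, hp⟩

/-- the action preserves crossings. -/
def Pres (P W : Type*) [Group P] [MulAction P W] [LinearOrder W] : Prop :=
  ∀ (g : P) (x y u v : W), Cross x y u v → Cross (g • x) (g • y) (g • u) (g • v)

theorem Pres.back (hc : Pres P W) {g : P} {x y u v : W} (h : Cross (g • x) (g • y) u v) :
    Cross x y (g⁻¹ • u) (g⁻¹ • v) := by
  have := hc g⁻¹ _ _ _ _ h
  rwa [inv_smul_smul, inv_smul_smul] at this

theorem Adj.smul (h : Sys P B T) (hc : Pres P W) {a b : W} (ha : Adj B T a b) (g : P) :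
    Adj B T (g • a) (g • b) := by
  refine ⟨h.smul g ha.rel, fun e => ha.ne (smul_left_cancel g e), fun e => ha.ne' ?_,
    fun w hw => ?_, fun hw => ?_⟩
  · rw [h.eqB] at e
    exact smul_left_cancel g e
  · have := hc.back hw
    rw [← h.eqB] at this
    exact ha.unc _ this
  · have := hc.back hw
    rw [h.eqB, h.eqB, inv_smul_smul, inv_smul_smul] at this
    exact ha.par this

theorem Adj.other (h : Sys P B T) {a b : W} (ha : Adj B T a b) : Adj B T (B a) (B b) := by
  refine ⟨(h.symm (Rel.rfl' a).stepB).tr ha.rel.stepB, fun e => ha.ne ?_, fun e => ha.ne' ?_,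
    fun w hc => ?_, ?_⟩
  · rw [h.eqB' e, h.invB]
  · rw [h.eqB' e, h.invB]
  · rcases cross_trans (y := a) hc (fun e => hc.2.2.1 (by rw [e])) (fun e => hc.1 (h.eqB' e))
      with h3 | h3
    · exact h.ncB a w h3.flip
    · rcases cross_trans (y := b) h3 (fun e => hc.2.2.2.1 (by rw [e]))
        (fun e => hc.2.1 (h.eqB' e)) with h4 | h4
      · exact ha.unc w h4
      · exact h.ncB b w h4
  · rw [h.invB, h.invB]
    exact fun hc => ha.par hc.symm

/-- `w` is not a translate of one of the four ends. -/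
def Old (P : Type*) {W : Type*} [Group P] [MulAction P W] (B : W → W) (a b w : W) : Prop :=
  ∀ g : P, w ≠ g • a ∧ w ≠ g • b ∧ w ≠ g • B a ∧ w ≠ g • B b

/-- `C` is obtained from `B` by the equivariant band move at `a`, `b`. -/
structure Band (P : Type*) {W : Type*} [Group P] [MulAction P W] (B C : W → W) (a b : W) :
    Prop where
  e1 : ∀ g : P, C (g • a) = g • b
  e2 : ∀ g : P, C (g • b) = g • a
  e3 : ∀ g : P, C (g • B a) = g • B b
  e4 : ∀ g : P, C (g • B b) = g • B a
  old : ∀ w, Old P B a b w → C w = B w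

theorem old_cases (P : Type*) {W : Type*} [Group P] [MulAction P W] (B : W → W) (a b w : W) :
    Old P B a b w ∨ ∃ g : P, w = g • a ∨ w = g • b ∨ w = g • B a ∨ w = g • B b := by
  by_cases h : Old P B a b w
  · exact Or.inl h
  · right
    unfold Old at h
    push Not at h
    obtain ⟨g, hg⟩ := h
    refine ⟨g, ?_⟩
    tauto

theorem Adj.exists_band (h : Sys P B T) {a b : W} (ha : Adj B T a b) : ∃ C, Band P B C a b := by
  classical
  have r1 : Rel B T a a := Rel.rfl' a
  have r2 : Rel B T a b := ha.rel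
  have r3 : Rel B T a (B a) := r1.stepB
  have r4 : Rel B T a (B b) := r2.stepB
  have n1 := ha.ne
  have n2 := ha.ne'
  have n3 : B b ≠ a := fun e => n2 (h.eqB' e)
  have n4 : B b ≠ B a := (ha.other h).ne
  have key : ∀ {x y : W} {g k : P}, Rel B T a x → Rel B T a y → g • x = k • y → g = k ∧ x = y :=
    fun hx hy e => h.inj ((h.symm hx).tr hy) e
  refine ⟨fun w => if q : ∃ g : P, g • a = w then q.choose • b
    else if q : ∃ g : P, g • b = w then q.choose • a
    else if q : ∃ g : P, g • B a = w then q.choose • B b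
    else if q : ∃ g : P, g • B b = w then q.choose • B a else B w, ?_, ?_, ?_, ?_, ?_⟩
  · intro g
    have q : ∃ k : P, k • a = g • a := ⟨g, rfl⟩
    simp only [dif_pos q]
    rw [(key r1 r1 q.choose_spec).1]
  · intro g
    have q1 : ¬ ∃ k : P, k • a = g • b := fun ⟨k, e⟩ => n1 (key r1 r2 e).2.symm
    have q : ∃ k : P, k • b = g • b := ⟨g, rfl⟩
    simp only [dif_neg q1, dif_pos q]
    rw [(key r2 r2 q.choose_spec).1]
  · intro g
    have q1 : ¬ ∃ k : P, k • a = g • B a := fun ⟨k, e⟩ => h.neB a (key r1 r3 e).2.symm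
    have q2 : ¬ ∃ k : P, k • b = g • B a := fun ⟨k, e⟩ => n2 (key r2 r3 e).2
    have q : ∃ k : P, k • B a = g • B a := ⟨g, rfl⟩
    simp only [dif_neg q1, dif_neg q2, dif_pos q]
    rw [(key r3 r3 q.choose_spec).1]
  · intro g
    have q1 : ¬ ∃ k : P, k • a = g • B b := fun ⟨k, e⟩ => n3 (key r1 r4 e).2.symm
    have q2 : ¬ ∃ k : P, k • b = g • B b := fun ⟨k, e⟩ => h.neB b (key r2 r4 e).2.symm
    have q3 : ¬ ∃ k : P, k • B a = g • B b := fun ⟨k, e⟩ => n4 (key r3 r4 e).2.symm
    have q : ∃ k : P, k • B b = g • B b := ⟨g, rfl⟩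
    simp only [dif_neg q1, dif_neg q2, dif_neg q3, dif_pos q]
    rw [(key r4 r4 q.choose_spec).1]
  · intro w hw
    have q1 : ¬ ∃ k : P, k • a = w := fun ⟨k, e⟩ => (hw k).1 e.symm
    have q2 : ¬ ∃ k : P, k • b = w := fun ⟨k, e⟩ => (hw k).2.1 e.symm
    have q3 : ¬ ∃ k : P, k • B a = w := fun ⟨k, e⟩ => (hw k).2.2.1 e.symm
    have q4 : ¬ ∃ k : P, k • B b = w := fun ⟨k, e⟩ => (hw k).2.2.2 e.symm
    simp only [dif_neg q1, dif_neg q2, dif_neg q3, dif_neg q4]

theorem Old.stepB (h : Sys P B T) {a b w : W} (hw : Old P B a b w) : Old P B a b (B w) := by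
  intro g
  refine ⟨fun e => (hw g).2.2.1 ?_, fun e => (hw g).2.2.2 ?_, fun e => (hw g).1 ?_,
    fun e => (hw g).2.1 ?_⟩
  · rw [h.eqB' e, h.eqB]
  · rw [h.eqB' e, h.eqB]
  · rw [h.eqB' e, h.eqB, h.invB]
  · rw [h.eqB' e, h.eqB, h.invB]

omit [LinearOrder W] in
theorem Old.smul {a b w : W} (hw : Old P B a b w) (k : P) : Old P B a b (k • w) := by
  intro g
  have key : ∀ x : W, k • w = g • x → w = (k⁻¹ * g) • x := fun x e => by
    rw [mul_smul, ← e, inv_smul_smul]
  exact ⟨fun e => (hw _).1 (key _ e), fun e => (hw _).2.1 (key _ e),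
    fun e => (hw _).2.2.1 (key _ e), fun e => (hw _).2.2.2 (key _ e)⟩

theorem Adj.old_of (h : Sys P B T) {a b s : W} (ha : Adj B T a b) (hs : Rel B T a s)
    (h1 : s ≠ a) (h2 : s ≠ b) (h3 : s ≠ B a) (h4 : s ≠ B b) : Old P B a b s := by
  have key : ∀ (x : W) (g : P), Rel B T a x → s = g • x → s = x := fun x g hx e =>
    (h.inj (g := 1) (k := g) ((h.symm hs).tr hx) (by rwa [one_smul])).2
  intro g
  exact ⟨fun e => h1 (key _ g (Rel.rfl' a) e), fun e => h2 (key _ g ha.rel e),
    fun e => h3 (key _ g (Rel.rfl' a).stepB e), fun e => h4 (key _ g ha.rel.stepB e)⟩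

namespace Band
variable {C : W → W} {a b : W}

omit [LinearOrder W] in
theorem a1 (hb : Band P B C a b) : C a = b := by simpa using hb.e1 1

omit [LinearOrder W] in
theorem a2 (hb : Band P B C a b) : C b = a := by simpa using hb.e2 1

omit [LinearOrder W] in
theorem a3 (hb : Band P B C a b) : C (B a) = B b := by simpa using hb.e3 1

omit [LinearOrder W] in
theorem a4 (hb : Band P B C a b) : C (B b) = B a := by simpa using hb.e4 1

theorem inv (h : Sys P B T) (hb : Band P B C a b) (w : W) : C (C w) = w := by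
  rcases old_cases P B a b w with hw | ⟨g, rfl | rfl | rfl | rfl⟩
  · rw [hb.old w hw, hb.old _ (hw.stepB h), h.invB]
  · rw [hb.e1, hb.e2]
  · rw [hb.e2, hb.e1]
  · rw [hb.e3, hb.e4]
  · rw [hb.e4, hb.e3]

theorem ne (h : Sys P B T) (ha : Adj B T a b) (hb : Band P B C a b) (w : W) : C w ≠ w := by
  rcases old_cases P B a b w with hw | ⟨g, rfl | rfl | rfl | rfl⟩
  · rw [hb.old w hw]
    exact h.neB w
  · rw [hb.e1]
    exact fun e => ha.ne (smul_left_cancel g e)
  · rw [hb.e2]
    exact fun e => ha.ne (smul_left_cancel g e).symm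
  · rw [hb.e3]
    exact fun e => (ha.other h).ne (smul_left_cancel g e)
  · rw [hb.e4]
    exact fun e => (ha.other h).ne (smul_left_cancel g e).symm

theorem equi (h : Sys P B T) (hb : Band P B C a b) (k : P) (w : W) : C (k • w) = k • C w := by
  rcases old_cases P B a b w with hw | ⟨g, rfl | rfl | rfl | rfl⟩
  · rw [hb.old w hw, hb.old _ (hw.smul k), h.eqB]
  · rw [hb.e1, smul_smul, smul_smul, hb.e1]
  · rw [hb.e2, smul_smul, smul_smul, hb.e2]
  · rw [hb.e3, smul_smul, smul_smul, hb.e3]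
  · rw [hb.e4, smul_smul, smul_smul, hb.e4]

theorem step (h : Sys P B T) (ha : Adj B T a b) (hb : Band P B C a b) (w : W) :
    Rel B T w (C w) := by
  rcases old_cases P B a b w with hw | ⟨g, rfl | rfl | rfl | rfl⟩
  · rw [hb.old w hw]
    exact (Rel.rfl' w).stepB
  · rw [hb.e1]
    exact h.smul g ha.rel
  · rw [hb.e2]
    exact h.smul g (h.symm ha.rel)
  · rw [hb.e3]
    exact h.smul g (ha.other h).rel
  · rw [hb.e4]
    exact h.smul g (h.symm (ha.other h).rel)

theorem rel (h : Sys P B T) (ha : Adj B T a b) (hb : Band P B C a b) {x y : W}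
    (hr : Rel C T x y) : Rel B T x y :=
  Rel.ind (p := fun y => Rel B T x y) (Rel.rfl' x) (fun y _ hy => hy.tr (hb.step h ha y))
    (fun _ _ hy => hy.stepT) hr

/-- no `C`-chord crosses a `B`-chord. -/
theorem ncBC (h : Sys P B T) (hc : Pres P W) (ha : Adj B T a b) (hb : Band P B C a b) (s w : W) :
    ¬ Cross s (C s) w (B w) := by
  rcases old_cases P B a b s with hw | ⟨g, rfl | rfl | rfl | rfl⟩
  · rw [hb.old s hw]
    exact h.ncB s w
  · rw [hb.e1]
    exact (ha.smul h hc g).unc w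
  · rw [hb.e2]
    exact fun e => (ha.smul h hc g).unc w e.flip
  · rw [hb.e3]
    exact ((ha.other h).smul h hc g).unc w
  · rw [hb.e4]
    exact fun e => ((ha.other h).smul h hc g).unc w e.flip

/-- the ends `a` and `b` have opposite parity on their loop. -/
theorem colour (h : Sys P B T) (ha : Adj B T a b) (hb : Band P B C a b) :
    pos (h.loop a) b = pos (h.loop a) a + 1 := by
  have := Sys.pos_in (h.loop a) C
    (fun s hs => h.mem_loop.2 ((h.mem_loop.1 hs).tr (hb.step h ha s))) (fun s _ => hb.inv h s)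
    (fun s _ => hb.ne h ha s) (h.mem_loop.2 (Rel.rfl' a)) fun s hs => by
      rw [hb.a1]
      by_cases e1 : s = a
      · exact fun e => e.1 e1
      by_cases e2 : s = b
      · exact fun e => e.2.1 e2
      by_cases e3 : s = B a
      · rw [e3, hb.a3]
        exact ha.par
      by_cases e4 : s = B b
      · rw [e4, hb.a4]
        exact fun e => ha.par e.swap
      rw [hb.old s (ha.old_of h (h.mem_loop.1 hs) e1 e2 e3 e4)]
      exact ha.unc s
  rwa [hb.a1] at this

end Band

theorem Sys.posB (h : Sys P B T) {a y : W} (hy : Rel B T a y) :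
    pos (h.loop a) (B y) = pos (h.loop a) y + 1 :=
  Sys.pos_in (h.loop a) B (fun _ hs => h.mem_loop.2 (h.mem_loop.1 hs).stepB)
    (fun s _ => h.invB s) (fun s _ => h.neB s) (h.mem_loop.2 hy) fun s _ => h.ncB y s

theorem Sys.posT (h : Sys P B T) {a y : W} (hy : Rel B T a y) :
    pos (h.loop a) (T y) = pos (h.loop a) y + 1 :=
  Sys.pos_in (h.loop a) T (fun _ hs => h.mem_loop.2 (h.mem_loop.1 hs).stepT)
    (fun s _ => h.invT s) (fun s _ => h.neT s) (h.mem_loop.2 hy) fun s _ => h.ncT y s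

/-- the part of the loop that runs from `a` to `b` starting with a `T`-chord. -/
theorem Adj.exists_arc (h : Sys P B T) {a b : W} (ha : Adj B T a b) :
    ∃ S : Finset W, a ∈ S ∧ b ∈ S ∧ B a ∉ S ∧ B b ∉ S ∧ (∀ s ∈ S, Rel B T a s) ∧
      (∀ s ∈ S, T s ∈ S) ∧ ∀ s ∈ S, s ≠ a → s ≠ b → B s ∈ S := by
  classical
  obtain ⟨C, hb⟩ := ha.exists_band h
  have hcol := hb.colour h ha
  set t : ℕ → W := fun j => (T ∘ B)^[j] (T a) with ht
  have t0 : t 0 = T a := rfl
  have ts : ∀ j, t (j + 1) = T (B (t j)) := fun j => Function.iterate_succ_apply' _ _ _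
  have tr : ∀ j, Rel B T a (t j) := by
    intro j
    induction j with
    | zero => exact (Rel.rfl' a).stepT
    | succ j ih =>
      rw [ts]
      exact ih.stepB.stepT
  have tc : ∀ j, pos (h.loop a) (t j) = pos (h.loop a) a + 1 := by
    intro j
    induction j with
    | zero => exact h.posT (Rel.rfl' a)
    | succ j ih =>
      rw [ts, h.posT (tr j).stepB, h.posB (tr j), ih]
      generalize pos (h.loop a) a = z
      revert z
      decide
  have hinj : Function.Injective (T ∘ B) := fun x y e => by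
    have e1 : B x = B y := (h.eqT' e).trans (h.invT _)
    rw [h.eqB' e1, h.invB]
  have hex : ∃ k, t k = a ∨ t k = b ∨ t k = B a ∨ t k = B b := by
    obtain ⟨m, n, hmn, e⟩ := Set.Finite.exists_lt_map_eq_of_forall_mem
      (f := fun n : ℕ => (T ∘ B)^[n] (B a)) (t := {y | Rel B T a y}) (fun n => by
        rcases n with _ | n
        · exact (Rel.rfl' a).stepB
        · have : (T ∘ B)^[n + 1] (B a) = t n := by
            rw [Function.iterate_succ_apply, Function.comp_apply, h.invB]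
          rw [this]
          exact tr n) (h.fin a)
    have e2 := Function.iterate_cancel hinj e.symm
    obtain ⟨p, hp⟩ : ∃ p, n - m = p + 1 := ⟨n - m - 1, by omega⟩
    rw [hp, Function.iterate_succ_apply, Function.comp_apply, h.invB] at e2
    exact ⟨p, Or.inr (Or.inr (Or.inl e2))⟩
  set k := Nat.find hex with hk
  have hmin : ∀ j < k, t j ≠ a ∧ t j ≠ b ∧ t j ≠ B a ∧ t j ≠ B b := fun j hj => by
    have := Nat.find_min hex hj
    tauto
  have z1 : ∀ z : ZMod 2, z ≠ z + 1 := by decide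
  have z2 : ∀ z : ZMod 2, z + 1 + 1 ≠ z + 1 := by decide
  have na : ∀ j, t j ≠ a := fun j e => z1 _ (by rw [← tc j, e])
  have nb : ∀ j, t j ≠ B b := fun j e => z2 (pos (h.loop a) a) (by
    rw [← hcol, ← h.posB ha.rel, ← e, tc j, hcol])
  set S : Finset W := (Finset.range (k + 1)).image t ∪ (Finset.range (k + 1)).image (T ∘ t)
    with hS
  have mem : ∀ s, s ∈ S ↔ ∃ j ≤ k, s = t j ∨ s = T (t j) := by
    intro s
    simp only [hS, Finset.mem_union, Finset.mem_image, Finset.mem_range, Function.comp_apply,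
      Nat.lt_succ_iff]
    constructor
    · rintro (⟨j, hj, e⟩ | ⟨j, hj, e⟩)
      · exact ⟨j, hj, Or.inl e.symm⟩
      · exact ⟨j, hj, Or.inr e.symm⟩
    · rintro ⟨j, hj, e | e⟩
      · exact Or.inl ⟨j, hj, e.symm⟩
      · exact Or.inr ⟨j, hj, e.symm⟩
  have aS : a ∈ S := (mem a).2 ⟨0, Nat.zero_le _, Or.inr (by rw [t0, h.invT])⟩
  have cT : ∀ s ∈ S, T s ∈ S := by
    intro s hs
    obtain ⟨j, hj, rfl | rfl⟩ := (mem s).1 hs
    · exact (mem _).2 ⟨j, hj, Or.inr rfl⟩
    · exact (mem _).2 ⟨j, hj, Or.inl (h.invT _)⟩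
  have cB : ∀ s ∈ S, s ≠ a → s ≠ t k → B s ∈ S := by
    intro s hs h1 h2
    obtain ⟨j, hj, rfl | rfl⟩ := (mem s).1 hs
    · have hj' : j ≠ k := fun e => h2 (by rw [e])
      exact (mem _).2 ⟨j + 1, by omega, Or.inr (by rw [ts, h.invT])⟩
    · rcases j with _ | j
      · exact absurd (by rw [t0, h.invT]) h1
      · exact (mem _).2 ⟨j, by omega, Or.inl (by rw [ts, h.invT, h.invB])⟩
  have mem' : ∀ s ∈ S, s = a ∨ s = t k ∨ ∃ j < k, s = t j ∨ s = B (t j) := by
    intro s hs
    obtain ⟨j, hj, rfl | rfl⟩ := (mem s).1 hs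
    · rcases hj.lt_or_eq with hj | rfl
      · exact Or.inr (Or.inr ⟨j, hj, Or.inl rfl⟩)
      · exact Or.inr (Or.inl rfl)
    · rcases j with _ | j
      · exact Or.inl (by rw [t0, h.invT])
      · exact Or.inr (Or.inr ⟨j, by omega, Or.inr (by rw [ts, h.invT])⟩)
  have hkb : t k = b := by
    rcases Nat.find_spec hex with e | e | e | e
    · exact absurd e (na _)
    · exact e
    · exfalso
      have e' : t k = B a := e
      have kS : t k ∈ S := (mem _).2 ⟨k, le_rfl, Or.inl rfl⟩
      have hbS : b ∈ S := by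
        refine Rel.ind (p := fun y => y ∈ S) aS (fun y _ hy => ?_) (fun y _ hy => cT y hy) ha.rel
        by_cases h1 : y = a
        · rw [h1, ← e']
          exact kS
        by_cases h2 : y = t k
        · rw [h2, e', h.invB]
          exact aS
        exact cB y hy h1 h2
      rcases mem' b hbS with e1 | e1 | ⟨j, hj, e1 | e1⟩
      · exact ha.ne e1
      · exact ha.ne' (e1.trans e')
      · exact (hmin j hj).2.1 e1.symm
      · exact nb j (h.eqB' e1.symm)
    · exact absurd e (nb _)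
  refine ⟨S, aS, (mem b).2 ⟨k, le_rfl, Or.inl hkb.symm⟩, fun hs => ?_, fun hs => ?_,
    fun s hs => ?_, cT, fun s hs h1 h2 => cB s hs h1 (hkb ▸ h2)⟩
  · rcases mem' _ hs with e1 | e1 | ⟨j, hj, e1 | e1⟩
    · exact h.neB a e1
    · exact ha.ne' (hkb.symm.trans e1.symm)
    · exact (hmin j hj).2.2.1 e1.symm
    · exact na j (by rw [h.eqB' e1.symm, h.invB])
  · rcases mem' _ hs with e1 | e1 | ⟨j, hj, e1 | e1⟩
    · exact ha.ne' (h.eqB' e1)
    · exact h.neB b (e1.trans hkb)
    · exact nb j e1.symm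
    · exact (hmin j hj).2.1 (by rw [h.eqB' e1.symm, h.invB])
  · obtain ⟨j, _, rfl | rfl⟩ := (mem s).1 hs
    · exact tr j
    · exact (tr j).stepT

namespace Band
variable {C : W → W} {a b : W}

theorem closed (h : Sys P B T) (ha : Adj B T a b) (hb : Band P B C a b) {S : Finset W}
    (h1 : a ∈ S) (h2 : b ∈ S) (h3 : B a ∉ S) (h4 : B b ∉ S) (h5 : ∀ s ∈ S, Rel B T a s)
    (h7 : ∀ s ∈ S, s ≠ a → s ≠ b → B s ∈ S) : ∀ s ∈ S, C s ∈ S := by
  intro s hs
  by_cases e1 : s = a
  · rw [e1, hb.a1]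
    exact h2
  by_cases e2 : s = b
  · rw [e2, hb.a2]
    exact h1
  rw [hb.old s (ha.old_of h (h5 s hs) e1 e2 (fun e => h3 (e ▸ hs)) fun e => h4 (e ▸ hs))]
  exact h7 s hs e1 e2

/-- the band move splits the loop. -/
theorem split (h : Sys P B T) (ha : Adj B T a b) (hb : Band P B C a b) : ¬ Rel C T a (B a) := by
  obtain ⟨S, h1, h2, h3, h4, h5, h6, h7⟩ := ha.exists_arc h
  intro hr
  exact h3 (Rel.ind (p := fun y => y ∈ S) h1
    (fun y _ hy => hb.closed h ha h1 h2 h3 h4 h5 h7 y hy) (fun y _ hy => h6 y hy) hr)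

/-- the new chord `a b` does not cross a chord that joins two points of another loop and crosses
no `B`-chord. -/
theorem nc_new (h : Sys P B T) (hc : Pres P W) (ha : Adj B T a b) {u v : W}
    (huv : Rel B T u v) (hu : ¬ Rel B T a u) (hx : ∀ w, ¬ Cross u v w (B w)) :
    ¬ Cross u v a b := by
  obtain ⟨C, hb⟩ := ha.exists_band h
  obtain ⟨S, h1, h2, h3, h4, h5, h6, h7⟩ := ha.exists_arc h
  have cC := hb.closed h ha h1 h2 h3 h4 h5 h7
  have hout : ∀ y, Rel B T u y → y ∉ S := fun y hy hm => hu ((h5 y hm).tr (h.symm hy))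
  have hpos : pos S v = pos S u := by
    refine Rel.ind (p := fun y => pos S y = pos S u) rfl (fun y hy e => ?_) (fun y hy e => ?_) huv
    · rw [← e]
      exact Sys.pos_out _ C cC (fun s _ => hb.inv h s) (fun s _ => hb.ne h ha s) (h.neB y).symm
        (hout y hy) (hout _ hy.stepB) fun s _ e => hb.ncBC h hc ha s y e.symm
    · rw [← e]
      exact Sys.pos_out _ T h6 (fun s _ => h.invT s) (fun s _ => h.neT s) (h.neT y).symm
        (hout y hy) (hout _ hy.stepT) fun s _ => h.ncT y s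
  intro hcr
  have hne : u ≠ v := by
    rintro rfl
    apply hcr.2.2.2.2
    unfold Btw
    constructor <;> rintro (⟨q1, q2⟩ | ⟨q1, q2⟩) <;> exact absurd (q1.trans q2) (lt_irrefl _)
  have hcnt : cnt S u v = 0 := by
    rw [← pos_add_out _ hne (hout u (Rel.rfl' u)) (hout v huv), hpos]
    exact CharTwo.add_self_eq_zero _
  have := sum_exc S C cC (fun s _ => hb.inv h s) (fun s _ => hb.ne h ha s)
    (fun s => ind (Btw u v s)) h1 fun s hs e1 e2 => by
      rw [hb.a1] at e2
      have hC : C s = B s :=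
        hb.old s (ha.old_of h (h5 s hs) e1 e2 (fun e => h3 (e ▸ hs)) fun e => h4 (e ▸ hs))
      have hBs : B s ∈ S := h7 s hs e1 e2
      rw [hC]
      refine ind_congr (iff_of_not_cross (hx s) ?_ ?_ ?_ ?_)
      · rintro rfl
        exact hout _ (Rel.rfl' _) hs
      · rintro rfl
        exact hout _ huv hs
      · intro e
        exact hout _ (Rel.rfl' _) (e ▸ hBs)
      · intro e
        exact hout _ huv (e ▸ hBs)
  rw [hb.a1] at this
  exact hcr.2.2.2.2 (iff_of_ind (this.symm.trans hcnt))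

/-- every new chord is a translate of an adjacent pair on the loop of `a`. -/
theorem chord_cases (h : Sys P B T) (hb : Band P B C a b) (s : W) :
    C s = B s ∨ ∃ (g : P) (p q : W), ((p = a ∧ q = b) ∨ (p = B a ∧ q = B b)) ∧
      ((s = g • p ∧ C s = g • q) ∨ (s = g • q ∧ C s = g • p)) := by
  have _ := h.invB
  rcases old_cases P B a b s with hw | ⟨g, rfl | rfl | rfl | rfl⟩
  · exact Or.inl (hb.old s hw)
  · exact Or.inr ⟨g, a, b, Or.inl ⟨rfl, rfl⟩, Or.inl ⟨rfl, hb.e1 g⟩⟩
  · exact Or.inr ⟨g, a, b, Or.inl ⟨rfl, rfl⟩, Or.inr ⟨rfl, hb.e2 g⟩⟩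
  · exact Or.inr ⟨g, B a, B b, Or.inr ⟨rfl, rfl⟩, Or.inl ⟨rfl, hb.e3 g⟩⟩
  · exact Or.inr ⟨g, B a, B b, Or.inr ⟨rfl, rfl⟩, Or.inr ⟨rfl, hb.e4 g⟩⟩

theorem nc_pair (h : Sys P B T) (hc : Pres P W) (ha : Adj B T a b) {p q p' q' : W}
    (hp : (p = a ∧ q = b) ∨ (p = B a ∧ q = B b)) (hp' : (p' = a ∧ q' = b) ∨ (p' = B a ∧ q' = B b))
    (g k : P) : ¬ Cross (g • p) (g • q) (k • p') (k • q') := by
  have A1 : Adj B T p q ∧ Rel B T a p := by
    rcases hp with ⟨rfl, rfl⟩ | ⟨rfl, rfl⟩
    · exact ⟨ha, Rel.rfl' _⟩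
    · exact ⟨ha.other h, (Rel.rfl' _).stepB⟩
  have A2 : Adj B T p' q' ∧ Rel B T a p' := by
    rcases hp' with ⟨rfl, rfl⟩ | ⟨rfl, rfl⟩
    · exact ⟨ha, Rel.rfl' _⟩
    · exact ⟨ha.other h, (Rel.rfl' _).stepB⟩
  by_cases e : g = k
  · subst e
    intro hx
    have hx' := hc.back hx
    rw [inv_smul_smul, inv_smul_smul] at hx'
    rcases hp with ⟨rfl, rfl⟩ | ⟨rfl, rfl⟩ <;> rcases hp' with ⟨rfl, rfl⟩ | ⟨rfl, rfl⟩
    · exact hx'.1 rfl
    · exact ha.par hx'
    · exact ha.par hx'.symm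
    · exact hx'.1 rfl
  · refine nc_new h hc (A2.1.smul h hc k) (h.smul g A1.1.rel) (fun hr => e ?_)
      (A1.1.smul h hc g).unc
    have r1 : Rel B T (k • p') (k • p) := h.smul k ((h.symm A2.2).tr A1.2)
    have r2 : Rel B T (k • p) ((g * k⁻¹) • k • p) := by
      rw [mul_smul, inv_smul_smul]
      exact (h.symm r1).tr hr
    exact mul_inv_eq_one.1 (h.stab _ _ r2)

theorem sys (h : Sys P B T) (hc : Pres P W) (ha : Adj B T a b) (hb : Band P B C a b) :
    Sys P C T := by
  refine ⟨hb.inv h, h.invT, hb.ne h ha, h.neT, hb.equi h, h.eqT, fun x u => ?_, h.ncT,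
    fun x => (h.fin x).subset fun y hy => hb.rel h ha hy, fun g x hr => h.stab g x (hb.rel h ha hr)⟩
  rcases hb.chord_cases h u with e | ⟨k, p', q', hp', hu⟩
  · rw [e]
    exact hb.ncBC h hc ha x u
  rcases hb.chord_cases h x with e | ⟨g, p, q, hp, hx⟩
  · rw [e]
    exact fun hx => hb.ncBC h hc ha u x hx.symm
  have := nc_pair h hc ha hp hp' g k
  rcases hx with ⟨e1, e2⟩ | ⟨e1, e2⟩ <;> rcases hu with ⟨e3, e4⟩ | ⟨e3, e4⟩ <;>
    rw [e2, e4, e1, e3]
  · exact this
  · exact fun hx => this hx.swap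
  · exact fun hx => this hx.flip
  · exact fun hx => this hx.flip.swap

end Band

/-- total size of the loops through the points of `R`. -/
noncomputable def size {W : Type*} (R : Finset W) (B T : W → W) : ℕ :=
  ∑ r ∈ R, {y | Rel B T r y}.ncard

theorem Band.size_lt {C : W → W} {a b : W} (h : Sys P B T) (hc : Pres P W) (ha : Adj B T a b)
    (hb : Band P B C a b) {R : Finset W} (hR : ∀ w, ∃ g : P, g • w ∈ R) :
    size R C T < size R B T := by
  have h' := hb.sys h hc ha
  unfold size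
  obtain ⟨g, hg⟩ := hR a
  refine Finset.sum_lt_sum (fun r _ => Set.ncard_le_ncard (fun y hy => hb.rel h ha hy) (h.fin r))
    ⟨g • a, hg, Set.ncard_lt_ncard ⟨fun y hy => hb.rel h ha hy, fun hsub => ?_⟩ (h.fin _)⟩
  have r1 : Rel C T (g • a) (g • B a) := hsub (h.smul g (Rel.rfl' a).stepB)
  have r2 := h'.smul g⁻¹ r1
  rw [inv_smul_smul, inv_smul_smul] at r2
  exact hb.split h ha r2

theorem fin_cross (h : Sys P B T) {R : Finset W} (hR : ∀ w, ∃ g : P, g • w ∈ R)
    (hl : ∀ x y u v : W, {g : P | Cross (g • x) (g • y) u v}.Finite) (a b : W) :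
    {w | Cross a b w (B w)}.Finite := by
  refine (R.finite_toSet.biUnion fun r _ => (hl r (B r) a b).image fun g => g • r).subset ?_
  intro w hw
  obtain ⟨g, hg⟩ := hR w
  simp only [Set.mem_iUnion, Set.mem_image, Set.mem_ofPred_eq]
  refine ⟨g • w, hg, g⁻¹, ?_, inv_smul_smul g w⟩
  rw [h.eqB, inv_smul_smul, inv_smul_smul]
  exact Cross.symm hw

theorem main_aux (hc : Pres P W) {R : Finset W} (hR : ∀ w, ∃ g : P, g • w ∈ R)
    (hl : ∀ x y u v : W, {g : P | Cross (g • x) (g • y) u v}.Finite) (n : ℕ) :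
    ∀ B : W → W, Sys P B T → size R B T = n → ∀ x0, B x0 ≠ T x0 → ∀ d,
      ∃ x, Rel B T x0 x ∧ x ≠ d ∧ x ≠ B d ∧ ∃ y, Rel B T x0 y ∧
        ∀ g : P, ¬ Cross (g • x) (g • B x) y (T y) := by
  induction n using Nat.strong_induction_on with
  | _ n ih =>
  intro B h hn x0 hx0 d
  obtain ⟨a0, b0, ha0⟩ := h.exists_adj (fin_cross h hR hl) hx0
  by_cases hcase : ∃ g : P, Rel B T x0 (g • a0)
  · obtain ⟨g0, hr⟩ := hcase
    have ha := ha0.smul h hc g0
    generalize g0 • a0 = a at hr ha
    generalize g0 • b0 = b at ha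
    have direct : ∀ p q, Adj B T p q → Rel B T x0 p → T p = q →
        ∃ x, Rel B T x0 x ∧ x ≠ d ∧ x ≠ B d ∧ ∃ y, Rel B T x0 y ∧
          ∀ g : P, ¬ Cross (g • x) (g • B x) y (T y) := by
      intro p q hp rp e
      have good : ∀ x, ∀ g : P, ¬ Cross (g • x) (g • B x) p (T p) := fun x g hx => by
        rw [e, ← h.eqB] at hx
        exact hp.unc _ hx.symm
      by_cases q1 : p ≠ d ∧ p ≠ B d
      · exact ⟨p, rp, q1.1, q1.2, p, rp, good p⟩
      · refine ⟨q, rp.tr hp.rel, fun e1 => q1 ⟨fun e2 => hp.ne (e1.trans e2.symm), fun e2 => ?_⟩,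
          fun e1 => q1 ⟨fun e2 => ?_, fun e2 => hp.ne (e1.trans e2.symm)⟩, p, rp, good q⟩
        · exact hp.ne' (by rw [e2, h.invB, e1])
        · exact hp.ne' (by rw [e1, e2])
    by_cases c1 : T a = b
    · exact direct a b ha hr c1
    by_cases c2 : T (B a) = B b
    · exact direct _ _ (ha.other h) hr.stepB c2
    obtain ⟨C, hb⟩ := ha.exists_band h
    have h' := hb.sys h hc ha
    have hlt : size R C T < n := hn ▸ hb.size_lt h hc ha hR
    have hs := hb.split h ha
    have rb : Rel C T a b := hb.a1 ▸ (Rel.rfl' a).stepB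
    have rb' : Rel C T (B a) (B b) := hb.a3 ▸ (Rel.rfl' (B a)).stepB
    obtain ⟨x, rx, n1, n2, y, ry, gx⟩ :=
      ih _ hlt C h' rfl a (by rw [hb.a1]; exact fun e => c1 e.symm) a
    obtain ⟨x', rx', n1', n2', y', ry', gx'⟩ :=
      ih _ hlt C h' rfl (B a) (by rw [hb.a3]; exact fun e => c2 e.symm) (B a)
    rw [hb.a1] at n2
    rw [hb.a3] at n2'
    have cx : C x = B x := hb.old x (ha.old_of h (hb.rel h ha rx) n1 n2 (fun e => hs (e ▸ rx))
      fun e => hs ((e ▸ rx : Rel C T a (B b)).tr (h'.symm rb')))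
    have cx' : C x' = B x' := hb.old x' (ha.old_of h ((Rel.rfl' a).stepB.tr (hb.rel h ha rx'))
      (fun e => hs (h'.symm (e ▸ rx'))) (fun e => hs (rb.tr (h'.symm (e ▸ rx')))) n1' n2')
    rw [cx] at gx
    rw [cx'] at gx'
    by_cases q1 : x ≠ d ∧ x ≠ B d
    · exact ⟨x, hr.tr (hb.rel h ha rx), q1.1, q1.2, y, hr.tr (hb.rel h ha ry), gx⟩
    · have m1 : x' ≠ x := fun e => hs (rx.tr (h'.symm (e ▸ rx')))
      have m2 : x' ≠ B x := fun e => hs ((cx ▸ rx.stepB : Rel C T a (B x)).tr (h'.symm (e ▸ rx')))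
      refine ⟨x', hr.stepB.tr (hb.rel h ha rx'), fun e1 => q1 ⟨fun e2 => m1 (e1.trans e2.symm),
        fun e2 => m2 ?_⟩, fun e1 => q1 ⟨fun e2 => m2 ?_, fun e2 => m1 (e1.trans e2.symm)⟩,
        y', hr.stepB.tr (hb.rel h ha ry'), gx'⟩
      · rw [e2, h.invB, e1]
      · rw [e1, e2]
  · push Not at hcase
    obtain ⟨C, hb⟩ := ha0.exists_band h
    have h' := hb.sys h hc ha0
    have hlt : size R C T < n := hn ▸ hb.size_lt h hc ha0 hR
    have hold : ∀ w, Rel B T x0 w → C w = B w := fun w hw => hb.old w fun g =>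
      ⟨fun e => hcase g (e ▸ hw),
        fun e => hcase g ((e ▸ hw : Rel B T x0 (g • b0)).tr (h.smul g (h.symm ha0.rel))),
        fun e => hcase g ((e ▸ hw : Rel B T x0 (g • B a0)).tr
          (h.smul g (h.symm (Rel.rfl' a0).stepB))),
        fun e => hcase g ((e ▸ hw : Rel B T x0 (g • B b0)).tr
          (h.smul g (h.symm ha0.rel.stepB)))⟩
    obtain ⟨x, rx, n1, n2, y, ry, gx⟩ :=
      ih _ hlt C h' rfl x0 (by rw [hold x0 (Rel.rfl' x0)]; exact hx0) d
    have rx' := hb.rel h ha0 rx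
    rw [hold x rx'] at gx
    refine ⟨x, rx', n1, fun e => n2 ?_, y, hb.rel h ha0 ry, gx⟩
    have e2 : C x = d := by rw [hold x rx', e, h.invB]
    exact h'.eqB' e2

/-- **Meander lemma**, for finitely many orbits. -/
theorem Sys.meander (h : Sys P B T) (hc : Pres P W) {R : Finset W} (hR : ∀ w, ∃ g : P, g • w ∈ R)
    (hl : ∀ x y u v : W, {g : P | Cross (g • x) (g • y) u v}.Finite) (x0 : W) :
    ∃ x y, Rel B T x0 x ∧ Rel B T x0 y ∧ ∀ g : P, ¬ Cross (g • x) (g • B x) y (T y) := by
  by_cases e : B x0 = T x0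
  · refine ⟨x0, x0, Rel.rfl' _, Rel.rfl' _, fun g hx => ?_⟩
    rw [← e, ← h.eqB] at hx
    exact h.ncB _ _ hx
  · obtain ⟨x, rx, -, -, y, ry, gx⟩ := main_aux hc hR hl _ B h rfl x0 e x0
    exact ⟨x, y, rx, ry, gx⟩

/-- periodic points of `B ∘ T` have finite loops. -/
theorem fin_of_periodic {W : Type*} {B T : W → W} (invB : ∀ x, B (B x) = x)
    (invT : ∀ x, T (T x) = x) {x : W} {n : ℕ} (hn : 0 < n) (hx : (B ∘ T)^[n] x = x) :
    {y | Rel B T x y}.Finite := by
  have hper : ∀ j, ∃ i < n, (B ∘ T)^[j] x = (B ∘ T)^[i] x := fun j =>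
    ⟨j % n, Nat.mod_lt _ hn, (Function.IsPeriodicPt.iterate_mod_apply hx j).symm⟩
  refine (((Set.finite_lt_nat n).image fun i => (B ∘ T)^[i] x).union
    ((Set.finite_lt_nat n).image fun i => T ((B ∘ T)^[i] x))).subset fun y hy => ?_
  have key : ∃ j, y = (B ∘ T)^[j] x ∨ y = T ((B ∘ T)^[j] x) := by
    refine Rel.ind (p := fun y => ∃ j, y = (B ∘ T)^[j] x ∨ y = T ((B ∘ T)^[j] x))
      ⟨0, Or.inl rfl⟩ ?_ ?_ hy
    · rintro y - ⟨j, rfl | rfl⟩
      · refine ⟨j + (n - 1), Or.inr ?_⟩
        have e : (B ∘ T)^[j] x = (B ∘ T) ((B ∘ T)^[j + (n - 1)] x) := by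
          rw [← Function.iterate_succ_apply' (B ∘ T), show (j + (n - 1)).succ = j + n by omega,
            Function.iterate_add_apply, hx]
        rw [e, Function.comp_apply, invB]
      · exact ⟨j + 1, Or.inl (Function.iterate_succ_apply' (B ∘ T) j x).symm⟩
    · rintro y - ⟨j, rfl | rfl⟩
      · exact ⟨j, Or.inr rfl⟩
      · exact ⟨j, Or.inl (invT _)⟩
  obtain ⟨j, hj⟩ := key
  obtain ⟨i, hi, e⟩ := hper j
  rw [e] at hj
  rcases hj with rfl | rfl
  · exact Or.inl ⟨i, hi, rfl⟩
  · exact Or.inr ⟨i, hi, rfl⟩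

/-- for a free action of a torsion free group, finite loops have trivial stabiliser. -/
theorem stab_of_free {P W : Type*} [Group P] [MulAction P W] {B T : W → W}
    (tf : ∀ (g : P) (n : ℕ), 0 < n → g ^ n = 1 → g = 1) (free : ∀ (g : P) (x : W), g • x = x → g = 1)
    (eqB : ∀ (g : P) x, B (g • x) = g • B x) (eqT : ∀ (g : P) x, T (g • x) = g • T x)
    {x : W} (fin : {y | Rel B T x y}.Finite) {g : P} (hr : Rel B T x (g • x)) : g = 1 := by
  have sm : ∀ (k : P) {y z : W}, Rel B T y z → Rel B T (k • y) (k • z) := fun k y z h =>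
    Rel.ind (p := fun z => Rel B T (k • y) (k • z)) (Rel.rfl' _)
      (fun z _ hz => eqB k z ▸ hz.stepB) (fun z _ hz => eqT k z ▸ hz.stepT) h
  have hp : ∀ n : ℕ, Rel B T x (g ^ n • x) := by
    intro n
    induction n with
    | zero =>
      rw [pow_zero, one_smul]
      exact Rel.rfl' x
    | succ n ih =>
      rw [pow_succ', mul_smul]
      exact hr.tr (sm g ih)
  obtain ⟨m, n, hmn, e⟩ := Set.Finite.exists_lt_map_eq_of_forall_mem
    (f := fun n : ℕ => g ^ n • x) (t := {y | Rel B T x y}) hp fin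
  obtain ⟨p, rfl⟩ := Nat.exists_eq_add_of_lt hmn
  refine tf g (p + 1) p.succ_pos (free _ x ?_)
  have e' : g ^ m • x = g ^ m • g ^ (p + 1) • x := by rw [← mul_smul, ← pow_add, ← add_assoc]; exact e
  exact (smul_left_cancel _ e').symm

theorem cross_coe {p : W → Prop} {x y u v : Subtype p} :
    Cross x y u v ↔ Cross (x : W) y u v := by
  unfold Cross Btw
  simp only [ne_eq, Subtype.ext_iff, Subtype.coe_lt_coe]

/-- **Meander lemma** for a system with arbitrarily many orbits. -/
theorem Sys.meander' (h : Sys P B T) (hc : Pres P W)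
    (hl : ∀ x y u v : W, {g : P | Cross (g • x) (g • y) u v}.Finite) (x0 : W) :
    ∃ x y, Rel B T x0 x ∧ Rel B T x0 y ∧ ∀ g : P, ¬ Cross (g • x) (g • B x) y (T y) := by
  classical
  let V : SubMulAction P W :=
    { carrier := {w | ∃ g : P, Rel B T x0 (g • w)}
      smul_mem' := fun k w ⟨g, hg⟩ => ⟨g * k⁻¹, by rwa [mul_smul, inv_smul_smul]⟩ }
  let B' : V → V := fun w => ⟨B w, by
    obtain ⟨g, hg⟩ := w.2
    exact ⟨g, h.eqB g _ ▸ hg.stepB⟩⟩
  let T' : V → V := fun w => ⟨T w, by
    obtain ⟨g, hg⟩ := w.2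
    exact ⟨g, h.eqT g _ ▸ hg.stepT⟩⟩
  have hrel : ∀ {x y : V}, Rel B' T' x y → Rel B T (x : W) y := fun {x y} hr =>
    Rel.ind (p := fun y : V => Rel B T (x : W) y) (Rel.rfl' _) (fun _ _ hy => hy.stepB)
      (fun _ _ hy => hy.stepT) hr
  have h' : Sys P B' T' :=
    ⟨fun x => Subtype.ext (h.invB x), fun x => Subtype.ext (h.invT x),
      fun x e => h.neB x (congrArg Subtype.val e), fun x e => h.neT x (congrArg Subtype.val e),
      fun g x => Subtype.ext (h.eqB g x), fun g x => Subtype.ext (h.eqT g x),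
      fun x u e => h.ncB x u (cross_coe.1 e), fun x u e => h.ncT x u (cross_coe.1 e),
      fun x => ((h.fin x).preimage Subtype.val_injective.injOn).subset fun y hy => hrel hy,
      fun g x hr => h.stab g x (hrel hr)⟩
  have hc' : Pres P V := fun g x y u v e => cross_coe.2 (hc g _ _ _ _ (cross_coe.1 e))
  have hfin : {y : V | Rel B T x0 y}.Finite := (h.fin x0).preimage Subtype.val_injective.injOn
  obtain ⟨x, y, rx, ry, gx⟩ := h'.meander hc' (R := hfin.toFinset) (fun w => by
      obtain ⟨g, hg⟩ := w.2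
      exact ⟨g, hfin.mem_toFinset.2 hg⟩)
    (fun x y u v => (hl x y u v).subset fun g hg => cross_coe.1 hg)
    ⟨x0, 1, by rw [one_smul]; exact Rel.rfl' _⟩
  exact ⟨x, y, hrel rx, hrel ry, fun g e => gx g (cross_coe.2 e)⟩

/-- **Meander lemma**. -/
theorem meander (tf : ∀ (g : P) (n : ℕ), 0 < n → g ^ n = 1 → g = 1)
    (free : ∀ (g : P) (x : W), g • x = x → g = 1)
    (hc : ∀ (g : P) (x y u v : W), Cross x y u v → Cross (g • x) (g • y) (g • u) (g • v))
    (hl : ∀ x y u v : W, {g : P | Cross (g • x) (g • y) u v}.Finite)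
    (invB : ∀ x, B (B x) = x) (invT : ∀ x, T (T x) = x) (neB : ∀ x, B x ≠ x) (neT : ∀ x, T x ≠ x)
    (eqB : ∀ (g : P) x, B (g • x) = g • B x) (eqT : ∀ (g : P) x, T (g • x) = g • T x)
    (ncB : ∀ x u, ¬ Cross x (B x) u (B u)) (ncT : ∀ x u, ¬ Cross x (T x) u (T u))
    (per : ∀ x, ∃ n, 0 < n ∧ (B ∘ T)^[n] x = x) (x0 : W) :
    ∃ x y, Rel B T x0 x ∧ Rel B T x0 y ∧ ∀ g : P, ¬ Cross (g • x) (g • B x) y (T y) := by
  have fin : ∀ x, {y | Rel B T x y}.Finite := fun x => by
    obtain ⟨n, hn, hx⟩ := per x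
    exact fin_of_periodic invB invT hn hx
  exact Sys.meander' ⟨invB, invT, neB, neT, eqB, eqT, ncB, ncT, fin,
    fun g x hr => stab_of_free tf free eqB eqT (fin x) hr⟩ hc hl x0

/-- a strict circular order, unbundled. -/
structure Circ {W : Type*} (o : W → W → W → Prop) : Prop where
  cyc : ∀ {a b c}, o a b c → o b c a
  asymm : ∀ {a b c}, o a b c → ¬ o c b a
  trans : ∀ {a b c d}, o a b c → o a c d → o a b d
  total : ∀ {a b c}, a ≠ b → b ≠ c → c ≠ a → o a b c ∨ o c b a

/-- the chords `x y` and `u v` cross for the circular order `o`. -/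
def CCross {W : Type*} (o : W → W → W → Prop) (x y u v : W) : Prop :=
  (o x u y ∧ o y v x) ∨ (o x v y ∧ o y u x)

theorem circ_sbtw {W : Type*} [CircularOrder W] : Circ (sbtw : W → W → W → Prop) := by
  refine ⟨sbtw_cyclic_left, sbtw_asymm, sbtw_trans_right, fun {a b c} h1 h2 h3 => ?_⟩
  by_contra hn
  rw [not_or, ← btw_iff_not_sbtw, ← btw_iff_not_sbtw] at hn
  rcases btw_antisymm hn.2 hn.1 with e | e | e
  · exact h1 e
  · exact h2 e
  · exact h3 e

namespace Circ
variable {V : Type*} {o : V → V → V → Prop}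

theorem ne13 (h : Circ o) {a b c : V} (e : o a b c) : a ≠ c := by
  rintro rfl
  exact h.asymm e e

theorem ne12 (h : Circ o) {a b c : V} (e : o a b c) : a ≠ b := (h.ne13 (h.cyc e)).symm

theorem ne23 (h : Circ o) {a b c : V} (e : o a b c) : b ≠ c := (h.ne13 (h.cyc (h.cyc e))).symm

/-- the circle cut open at `p`. -/
def cut (o : V → V → V → Prop) (p x y : V) : Prop := (x = p ∧ y ≠ p) ∨ o p x y

theorem sto (h : Circ o) (p : V) : IsStrictTotalOrder V (cut o p) where
  trichotomous a b h1 h2 := by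
    by_contra hab
    unfold cut at h1 h2
    by_cases ha : a = p
    · exact h1 (Or.inl ⟨ha, fun e => hab (ha.trans e.symm)⟩)
    by_cases hb : b = p
    · exact h2 (Or.inl ⟨hb, ha⟩)
    rcases h.total (a := p) (b := a) (c := b) (Ne.symm ha) hab hb with e | e
    · exact h1 (Or.inr e)
    · exact h2 (Or.inr (h.cyc (h.cyc e)))
  irrefl a e := by
    rcases e with e | e
    · exact e.2 e.1
    · exact h.ne23 e rfl
  trans a b c h1 h2 := by
    rcases h1 with h1 | h1 <;> rcases h2 with h2 | h2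
    · exact absurd h2.1 h1.2
    · exact Or.inl ⟨h1.1, (h.ne13 h2).symm⟩
    · exact absurd h2.1 (h.ne13 h1).symm
    · exact Or.inr (h.trans h1 h2)

theorem of_cut (h : Circ o) {p x y z : V} (h1 : cut o p x y) (h2 : cut o p y z) : o x y z := by
  rcases h1 with h1 | h1 <;> rcases h2 with h2 | h2
  · exact absurd h2.1 h1.2
  · exact h1.1 ▸ h2
  · exact absurd h2.1 (h.ne13 h1).symm
  · exact h.cyc (h.cyc (h.trans (h.cyc h2) (h.cyc (h.cyc h1))))

open Classical in
/-- the linear order obtained by cutting the circle at `p`. -/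
@[reducible] noncomputable def lin (h : Circ o) (p : V) : LinearOrder V :=
  haveI := h.sto p
  linearOrderOfSTO (cut o p)

theorem o_iff (h : Circ o) (p x y z : V) :
    letI := h.lin p
    o x y z ↔ (x < y ∧ y < z) ∨ (y < z ∧ z < x) ∨ (z < x ∧ x < y) := by
  let _ := h.lin p
  have key : ∀ {x y z : V}, x < y → y < z → o x y z := fun h1 h2 => h.of_cut h1 h2
  constructor
  · intro e
    have n1 := h.ne12 e
    have n2 := h.ne23 e
    have n3 := h.ne13 e
    have m1 : ¬ (z < y ∧ y < x) := fun q => h.asymm e (key q.1 q.2)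
    have m2 : ¬ (y < x ∧ x < z) := fun q => h.asymm e (h.cyc (h.cyc (key q.1 q.2)))
    have m3 : ¬ (x < z ∧ z < y) := fun q => h.asymm e (h.cyc (key q.1 q.2))
    grind
  · rintro (q | q | q)
    · exact key q.1 q.2
    · exact h.cyc (h.cyc (key q.1 q.2))
    · exact h.cyc (key q.1 q.2)

theorem ccross_iff (h : Circ o) (p x y u v : V) :
    letI := h.lin p
    CCross o x y u v ↔ Cross x y u v := by
  let _ := h.lin p
  unfold CCross
  rw [h.o_iff p, h.o_iff p, h.o_iff p, h.o_iff p]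
  unfold Cross Btw
  constructor
  · grind (splits := 40)
  · grind (splits := 40)

end Circ

/-- **Meander lemma** for a circular order. -/
theorem meander_circ {P V : Type*} [Group P] [MulAction P V] {o : V → V → V → Prop} (ho : Circ o)
    {B T : V → V} (tf : ∀ (g : P) (n : ℕ), 0 < n → g ^ n = 1 → g = 1)
    (free : ∀ (g : P) (x : V), g • x = x → g = 1)
    (hc : ∀ (g : P) (x y u v : V), CCross o x y u v → CCross o (g • x) (g • y) (g • u) (g • v))
    (hl : ∀ x y u v : V, {g : P | CCross o (g • x) (g • y) u v}.Finite)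
    (invB : ∀ x, B (B x) = x) (invT : ∀ x, T (T x) = x) (neB : ∀ x, B x ≠ x) (neT : ∀ x, T x ≠ x)
    (eqB : ∀ (g : P) x, B (g • x) = g • B x) (eqT : ∀ (g : P) x, T (g • x) = g • T x)
    (ncB : ∀ x u, ¬ CCross o x (B x) u (B u)) (ncT : ∀ x u, ¬ CCross o x (T x) u (T u))
    (per : ∀ x, ∃ n, 0 < n ∧ (B ∘ T)^[n] x = x) (x0 : V) :
    ∃ x y, Rel B T x0 x ∧ Rel B T x0 y ∧ ∀ g : P, ¬ CCross o (g • x) (g • B x) y (T y) := by
  let _ := ho.lin x0
  simp only [ho.ccross_iff x0] at hc hl ncB ncT ⊢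
  exact meander tf free hc hl invB invT neB neT eqB eqT ncB ncT per x0

end Meander7

end MrgPart1

-- ======== part 2: formerly Pool.Agent.MP_7ebdba_gt.ge.End
section MrgPart2

/-! The endgame of the geometric half, for an arbitrary group and a nested family of subsets. -/

namespace Pool.Agent.MP_7ebdba_gt.ge

open ch Set

variable {P : Type} [Group P]

/-- all translates of the line of `g` through `h` leave `X` in both directions -/
def Tails (g h : P) (X : Set P) : Prop := ∀ γ, {n : ℤ | h * g ^ n * γ ∈ X}.Finite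

/-- a side function modulo `g` separates `N` from `M` -/
def Sep (g : P) (N M : Set P) : Prop :=
  N.Infinite ∧ M.Infinite ∧ Tails g 1 (N ∪ M) ∧
    ∃ s1 a, AI0 g s1 ∧ {y ∈ N | s1 y ≠ a}.Finite ∧ {y ∈ M | s1 y ≠ a + 1}.Finite

/-- a nested family -/
structure Sys (S : ℤ → Set P) : Prop where
  anti : Antitone S
  lo : ∃ k, (1 : P) ∈ S k
  hi : ∃ k, (1 : P) ∉ S k

/-- in every window of length `W` some translate of the line of `g` crosses between `S j` and
`S (j + w)` -/
def Dense (g : P) (S : ℤ → Set P) (W w : ℕ) : Prop :=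
  ∃ N M, Sep g N M ∧ ∀ k : ℤ, ∃ j h, k ≤ j ∧ j < k + W ∧
    (∀ y, y ∉ S j → h⁻¹ * y ∈ N) ∧ ∀ y ∈ S (j + w), h⁻¹ * y ∈ M

/-- the translate by `h` of the side function `s` cuts at the gate `j` -/
structure Cut (g : P) (s : P → ZMod 2) (F : Set P) (S : ℤ → Set P) (w : ℕ) (j : ℤ) (h : P)
    (a : ZMod 2) : Prop where
  lo : ∀ y, y ∉ S j → h⁻¹ * y ∉ F → s (h⁻¹ * y) = a
  hi : ∀ y ∈ S (j + w), h⁻¹ * y ∉ F → s (h⁻¹ * y) = a + 1
  tl : Tails g h ((S j)ᶜ ∪ S (j + w))

variable {g g' h h' : P} {s : P → ZMod 2} {F X Y N M : Set P} {S : ℤ → Set P} {W w : ℕ} {j j' m : ℤ}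
  {a a' : ZMod 2}

theorem Tails.mono (H : Tails g h Y) (hs : X ⊆ Y) : Tails g h X :=
  fun γ => (H γ).subset fun _ hn => hs hn

theorem Tails.union (H : Tails g h X) (H' : Tails g h Y) : Tails g h (X ∪ Y) :=
  fun γ => (H γ).union (H' γ)

theorem Tails.not_univ : ¬ Tails g h univ := fun H =>
  Set.infinite_univ (α := ℤ) (by simpa using H 1)

theorem Tails.zpow (H : Tails g h X) (b : ℤ) : Tails g (h * g ^ b) X := fun γ =>
  (H (g ^ b * γ)).subset fun n hn => by
    have e : h * g ^ n * (g ^ b * γ) = h * g ^ b * g ^ n * γ := by group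
    rw [mem_ofPred_eq, e]
    exact hn

theorem Tails.inter (H : Tails g 1 X) (hY : FinMod g Y) : (X ∩ Y).Finite := by
  obtain ⟨R, hR⟩ := hY
  refine (R.finite_toSet.biUnion fun r _ => (H r).image fun n => g ^ n * r).subset ?_
  rintro x ⟨hx, hx'⟩
  obtain ⟨n, r, hr, rfl⟩ := hR x hx'
  exact mem_biUnion hr ⟨n, by simpa using hx, rfl⟩

theorem Sep.side (H : Sep g N M) (hs : Side g s) : ∃ (F : Set P) (a : ZMod 2), F.Finite ∧
    (∀ y ∈ N, y ∉ F → s y = a) ∧ ∀ y ∈ M, y ∉ F → s y = a + 1 := by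
  obtain ⟨hN, hM, ht, s1, a, h1, ha, hb⟩ := H
  obtain ⟨c, e, hf⟩ := hs.2 s1 h1
  have hF := ((ht.inter hf).union ha).union hb
  have k : ∀ y, y ∉ (N ∪ M) ∩ {x | s1 x ≠ c + e * s x} ∪ {y ∈ N | s1 y ≠ a} ∪
      {y ∈ M | s1 y ≠ a + 1} → (y ∈ N → a = c + e * s y) ∧ (y ∈ M → a + 1 = c + e * s y) := by
    intro y hn
    simp only [mem_union, mem_inter_iff, mem_ofPred_eq, not_or, not_and, not_not] at hn
    exact ⟨fun hy => (hn.1.2 hy).symm.trans (hn.1.1 (Or.inl hy)),
      fun hy => (hn.2 hy).symm.trans (hn.1.1 (Or.inr hy))⟩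
  obtain ⟨y1, hy1, hn1⟩ := (hN.sdiff hF).nonempty
  obtain ⟨y2, hy2, hn2⟩ := (hM.sdiff hF).nonempty
  have he : e = 1 :=
    (by decide : ∀ a c e u v : ZMod 2, a = c + e * u → a + 1 = c + e * v → e = 1) _ _ _ _ _
      ((k y1 hn1).1 hy1) ((k y2 hn2).2 hy2)
  subst he
  exact ⟨_, a + c, hF, fun y hy hn =>
    (by decide : ∀ a c u : ZMod 2, a = c + 1 * u → u = a + c) _ _ _ ((k y hn).1 hy), fun y hy hn =>
    (by decide : ∀ a c u : ZMod 2, a + 1 = c + 1 * u → u = a + c + 1) _ _ _ ((k y hn).2 hy)⟩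

theorem Dense.cut (H : Dense g S W w) (hs : Side g s) : ∃ (F : Set P) (a : ZMod 2), F.Finite ∧
    ∀ k : ℤ, ∃ j h, k ≤ j ∧ j < k + W ∧ Cut g s F S w j h a := by
  obtain ⟨N, M, hS, H⟩ := H
  obtain ⟨F, a, hF, ha, hb⟩ := hS.side hs
  refine ⟨F, a, hF, fun k => ?_⟩
  obtain ⟨j, h, h1, h2, h3, h4⟩ := H k
  refine ⟨j, h, h1, h2, fun y hy => ha _ (h3 y hy), fun y hy => hb _ (h4 y hy), fun γ => ?_⟩
  refine (hS.2.2.1 γ).subset fun n hn => ?_
  rcases hn with hn | hn
  · exact Or.inl (by simpa [mul_assoc] using h3 _ hn)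
  · exact Or.inr (by simpa [mul_assoc] using h4 _ hn)

/-- a line cannot cross at two gates that are far apart -/
theorem far (hS : Antitone S) (H : Tails g h ((S j)ᶜ ∪ S (j + w)))
    (H' : Tails g h ((S j')ᶜ ∪ S (j' + w))) : j' < j + w := by
  by_contra hn
  refine Tails.not_univ ((H.union H').mono fun y _ => ?_)
  by_cases hy : y ∈ S j'
  · exact Or.inl (Or.inr (hS (not_lt.1 hn) hy))
  · exact Or.inr (Or.inl hy)

theorem Tails.inj (H : Tails g h X) (hX : X.Nonempty) : Function.Injective fun n : ℤ => g ^ n := by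
  obtain ⟨x, hx⟩ := hX
  rw [injective_zpow_iff_not_isOfFinOrder]
  intro hf
  obtain ⟨k, hk, e⟩ := isOfFinOrder_iff_pow_eq_one.1 hf
  refine Set.infinite_of_injective_forall_mem (f := fun t : ℤ => (k : ℤ) * t)
    (mul_right_injective₀ (by exact_mod_cast hk.ne')) (fun t => ?_) (H (h⁻¹ * x))
  simpa [zpow_mul, e] using hx

theorem Dense.inj (H : Dense g S W w) : Function.Injective fun n : ℤ => g ^ n := by
  obtain ⟨N, M, hS, -⟩ := H
  exact hS.2.2.1.inj (hS.1.nonempty.mono subset_union_left)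

theorem fin_pre (hg : Function.Injective fun n : ℤ => g ^ n) (hF : F.Finite) (u v : P) :
    {n : ℤ | u * g ^ n * v ∈ F}.Finite :=
  hF.preimage (f := fun n : ℤ => u * g ^ n * v) fun _ _ _ _ e =>
    hg (mul_left_cancel (mul_right_cancel e))

/-- a function that is constant along the steps `g'` off the line of `g` -/
theorem step (hs : ∀ h, h ∉ Subgroup.zpowers g → h * g' ∉ Subgroup.zpowers g → s (h * g') = s h)
    (u : P) (p : ℤ) (n : ℕ) (H : ∀ i, p ≤ i → i ≤ p + n → u * g' ^ i ∉ Subgroup.zpowers g) :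
    s (u * g' ^ (p + n)) = s (u * g' ^ p) := by
  induction n with
  | zero => simp
  | succ n ih =>
    have e : u * g' ^ (p + (n + 1 : ℕ)) = u * g' ^ (p + n) * g' := by
      rw [Nat.cast_succ, ← add_assoc, zpow_add_one, mul_assoc]
    rw [← ih fun i h1 h2 => H i h1 (by push_cast; omega), e]
    exact hs _ (H _ (by omega) (by push_cast; omega)) (e ▸ H _ (by omega) le_rfl)

theorem step' (hs : ∀ h, h ∉ Subgroup.zpowers g → h * g' ∉ Subgroup.zpowers g → s (h * g') = s h)
    (u : P) {p q : ℤ} (hpq : p ≤ q) (hne : s (u * g' ^ q) ≠ s (u * g' ^ p)) :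
    ∃ i, p ≤ i ∧ i ≤ q ∧ u * g' ^ i ∈ Subgroup.zpowers g := by
  by_contra hn
  obtain ⟨n, rfl⟩ := Int.le.dest hpq
  exact hne (step hs u p n fun i h1 h2 hi => hn ⟨i, h1, h2, hi⟩)

theorem ex_ge {A : Set ℤ} (hA : A.Finite) (b : ℤ) : ∃ n, b ≤ n ∧ n ∉ A :=
  ((Set.Ici_infinite b).sdiff hA).nonempty
theorem ex_le {A : Set ℤ} (hA : A.Finite) (b : ℤ) : ∃ n, n ≤ b ∧ n ∉ A :=
  ((Set.Iic_infinite b).sdiff hA).nonempty

theorem ne_succ (a : ZMod 2) : a + 1 ≠ a := by revert a; decide

/-- DEPTH: an element adjacent to `g` is not a long translation of a family crossed by `g` -/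
theorem depth {p : ℕ} (hS : Sys S) (hA : Adj g g') (H : Dense g S W w)
    (hp : ∀ k y, g' * y ∈ S (k + p) ↔ y ∈ S k) (hW : W + 2 * w ≤ p) (hw : 0 < w) : False := by
  obtain ⟨s, hs, -, hs2⟩ := hA
  obtain ⟨F, a, hF, H⟩ := H.cut hs
  have hz : ∀ (t : ℤ) k y, g' ^ t * y ∈ S (k + t * p) ↔ y ∈ S k := by
    intro t
    induction t using Int.induction_on with
    | zero => simp
    | succ t ih =>
      intro k y
      rw [add_comm (t : ℤ) 1, zpow_one_add, mul_assoc, ← ih k y, ← hp (k + t * p)]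
      congr! 2
      ring
    | pred t ih =>
      intro k y
      rw [← ih k y, ← hp, ← mul_assoc, ← zpow_one_add]
      congr! 2 <;> ring_nf
  obtain ⟨k0, h0⟩ := hS.lo
  obtain ⟨k1, h1⟩ := hS.hi
  have hp0 : (0 : ℤ) < p := by omega
  have in0 : ∀ t : ℤ, g' ^ t ∈ S (k0 + t * p) := fun t => by simpa using (hz t k0 1).2 h0
  have in1 : ∀ t : ℤ, g' ^ t ∉ S (k1 + t * p) := fun t ht => h1 ((hz t k1 1).1 (by simpa using ht))
  have inj : Function.Injective fun n : ℤ => g' ^ n := by
    rw [injective_zpow_iff_not_isOfFinOrder]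
    intro hf
    obtain ⟨k, hk, e⟩ := isOfFinOrder_iff_pow_eq_one.1 hf
    have := in0 (k * |k1 - k0|)
    rw [zpow_mul, zpow_natCast, e, one_zpow] at this
    refine h1 (hS.anti ?_ this)
    have h2 : (1 : ℤ) ≤ k * p := by exact_mod_cast Nat.mul_pos hk (by exact_mod_cast hp0)
    nlinarith [le_abs_self (k1 - k0), abs_nonneg (k1 - k0)]
  have base : ∀ j h, Cut g s F S w j h a → ∃ i : ℤ, h⁻¹ * g' ^ i ∈ Subgroup.zpowers g := by
    intro j h c
    have hf := fin_pre inj hF h⁻¹ 1
    obtain ⟨q, hq, hq'⟩ := ex_ge hf |j + w - k0|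
    obtain ⟨r, hr, hr'⟩ := ex_le hf (-|j - k1|)
    have e1 := c.hi (g' ^ q) (hS.anti (by
      nlinarith [le_abs_self (j + w - k0), abs_nonneg (j + w - k0)]) (in0 q)) (by simpa using hq')
    have e2 := c.lo (g' ^ r) (fun hh => in1 r (hS.anti (by
      nlinarith [neg_abs_le (j - k1), abs_nonneg (j - k1)]) hh)) (by simpa using hr')
    obtain ⟨i, -, -, hi⟩ := step' hs2 h⁻¹ (p := r) (q := q)
      (by linarith [abs_nonneg (j + w - k0), abs_nonneg (j - k1)])
      (by rw [e1, e2]; exact ne_succ a)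
    exact ⟨i, hi⟩
  obtain ⟨j1, u1, -, -, c1⟩ := H 0
  obtain ⟨j2, u2, l1, l2, c2⟩ := H (j1 + w)
  obtain ⟨i1, b1, e1⟩ := base _ _ c1
  obtain ⟨i2, b2, e2⟩ := base _ _ c2
  have e : g' ^ (i2 - i1) * u1 = u2 * g ^ (b2 - b1) := by
    have x1 : g ^ b1 = u1⁻¹ * g' ^ i1 := e1
    have x2 : g ^ b2 = u2⁻¹ * g' ^ i2 := e2
    rw [zpow_sub, zpow_sub, x1, x2]
    group
  have t1 : Tails g (g' ^ (i2 - i1) * u1)
      ((S (j1 + (i2 - i1) * p))ᶜ ∪ S (j1 + (i2 - i1) * p + w)) := fun γ =>
    (c1.tl γ).subset fun n hn => by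
      rcases hn with hn | hn
      · exact Or.inl fun hh => hn (by simpa only [mul_assoc] using (hz _ _ _).2 hh)
      · refine Or.inr ((hz (i2 - i1) _ _).1 ?_)
        rw [add_right_comm]
        simpa only [mul_assoc] using hn
  have t2 := c2.tl.zpow (b2 - b1)
  rw [← e] at t2
  have f1 := far hS.anti t1 t2
  have f2 := far hS.anti t2 t1
  have hW' : (W : ℤ) + 2 * w ≤ p := by exact_mod_cast hW
  rcases le_or_gt (i2 - i1) 0 with ht | ht
  · nlinarith
  · nlinarith

/-- all translates of the line of `g` end outside `S m` -/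
def Low (g : P) (S : ℤ → Set P) (m : ℤ) : Prop := Tails g 1 (S m)
/-- all translates of the line of `g` end inside `S m` -/
def High (g : P) (S : ℤ → Set P) (m : ℤ) : Prop := Tails g 1 (S m)ᶜ

/-- the trichotomy at a gate -/
theorem Cut.tri (c : Cut g s F S w j h a) (hs : Side g s)
    (hs1 : ∀ h, h ∉ Subgroup.zpowers g → s (h * g) = s h) (hF : F.Finite)
    (hg : Function.Injective fun n : ℤ => g ^ n) :
    (s h⁻¹ = a → Low g S (j + w)) ∧ (s h⁻¹ = a + 1 → High g S j) := by
  by_cases hc : ∃ l l' : ℤ, l ≠ 0 ∧ g ^ l * h = h * g ^ l'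
  · obtain ⟨l, l', hl, e⟩ := hc
    have hl' : l' ≠ 0 := by
      rintro rfl
      exact hl (hg (show g ^ l = g ^ (0 : ℤ) by simpa using e))
    have e2 : ∀ t : ℤ, g ^ (l * t) = h * g ^ (l' * t) * h⁻¹ := fun t => by
      rw [zpow_mul, zpow_mul, ← conj_zpow, ← e, mul_inv_cancel_right]
    have key : Tails g 1 ((S j)ᶜ ∪ S (j + w)) := fun γ => by
      refine ((Set.finite_Ico 0 |l|).biUnion fun r _ =>
        (((c.tl (h⁻¹ * g ^ r * γ)).preimage (f := fun t => l' * t)
          (mul_right_injective₀ hl').injOn).image fun t => l * t + r)).subset fun n hn => ?_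
      refine mem_biUnion (x := n % l) ⟨Int.emod_nonneg _ hl, Int.emod_lt_abs _ hl⟩
        ⟨n / l, ?_, Int.mul_ediv_add_emod n l⟩
      have : h * g ^ (l' * (n / l)) * (h⁻¹ * g ^ (n % l) * γ) = 1 * g ^ n * γ := by
        rw [← mul_assoc, ← mul_assoc, ← e2, ← zpow_add, Int.mul_ediv_add_emod, one_mul]
      rw [mem_preimage, mem_ofPred_eq, this]
      exact hn
    exact ⟨fun _ => key.mono subset_union_right, fun _ => key.mono subset_union_left⟩
  · have nz : ∀ n : ℤ, h⁻¹ * g ^ n ∉ Subgroup.zpowers g := by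
      rintro n ⟨b, e⟩
      refine hc ⟨1, 1, one_ne_zero, ?_⟩
      have e' : g ^ b = h⁻¹ * g ^ n := e
      have : h = g ^ (n - b) := by rw [zpow_sub, e']; group
      rw [this, zpow_mul_comm]
    have cst : ∀ n : ℤ, s (h⁻¹ * g ^ n) = s h⁻¹ := fun n => by
      by_contra hne
      rcases le_total 0 n with h0 | h0
      · obtain ⟨i, -, -, hi⟩ := step' (fun u hu _ => hs1 u hu) h⁻¹ h0 (by simpa using hne)
        exact nz i hi
      · obtain ⟨i, -, -, hi⟩ := step' (fun u hu _ => hs1 u hu) h⁻¹ h0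
          (by simpa using Ne.symm hne)
        exact nz i hi
    have key : ∀ γ, ({n : ℤ | s (h⁻¹ * (1 * g ^ n * γ)) ≠ s h⁻¹} ∪
        {n : ℤ | h⁻¹ * (1 * g ^ n * γ) ∈ F}).Finite := fun γ => by
      refine Set.Finite.union ?_ (by simpa only [one_mul, mul_assoc] using fin_pre hg hF h⁻¹ γ)
      obtain ⟨R, hR⟩ := hs.1.2 γ
      refine (R.finite_toSet.biUnion (t := fun r => {n : ℤ | ∃ b : ℤ, h⁻¹ * g ^ n = g ^ b * r})
        fun r _ => Set.Subsingleton.finite ?_).subset fun n hn => ?_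
      · rintro n ⟨b, e⟩ n' ⟨b', e'⟩
        by_contra hne
        refine hc ⟨n - n', b - b', sub_ne_zero.2 hne, ?_⟩
        have x : g ^ n = h * (g ^ b * r) := by rw [← e]; group
        have x' : g ^ n' = h * (g ^ b' * r) := by rw [← e']; group
        rw [zpow_sub, zpow_sub, x, x']
        group
      · obtain ⟨b, r, hr, e⟩ := hR (h⁻¹ * g ^ n) (by
          rw [mem_ofPred_eq, cst n]; simpa only [mem_ofPred_eq, one_mul, mul_assoc] using hn)
        exact mem_biUnion hr ⟨b, e⟩
    constructor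
    · refine fun e γ => (key γ).subset fun n hn => ?_
      by_contra hh
      rw [mem_union, not_or, mem_ofPred_eq, not_not] at hh
      exact ne_succ a ((c.hi _ hn hh.2).symm.trans (hh.1.trans e))
    · refine fun e γ => (key γ).subset fun n hn => ?_
      by_contra hh
      rw [mem_union, not_or, mem_ofPred_eq, not_not] at hh
      exact ne_succ a (e.symm.trans (hh.1.symm.trans (c.lo _ hn hh.2)))

theorem Low.mono (hS : Antitone S) (H : Low g S j) (l : j ≤ j') : Low g S j' :=
  Tails.mono H (hS l)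
theorem High.mono (hS : Antitone S) (H : High g S j') (l : j ≤ j') : High g S j :=
  Tails.mono H (compl_subset_compl.2 (hS l))
theorem High.lt (hS : Antitone S) (H : High g S j) (H' : Low g S j') : j < j' := by
  by_contra hn
  exact Tails.not_univ (((Tails.mono H' (hS (not_lt.1 hn))).union H).mono (by simp))

theorem two (a b : ZMod 2) : b = a ∨ b = a + 1 := by revert a b; decide

/-- not high means low a little further -/
theorem low_of_not_high (hS : Antitone S) (hA : Adj g g') (H : Dense g S W w)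
    (hn : ¬ High g S m) : Low g S (m + W + w) := by
  obtain ⟨s, hs, hs1, -⟩ := hA
  obtain ⟨F, a, hF, H'⟩ := H.cut hs
  obtain ⟨j, h, l1, l2, c⟩ := H' m
  obtain ⟨t1, t2⟩ := c.tri hs hs1 hF H.inj
  rcases two a (s h⁻¹) with e | e
  · exact (t1 e).mono hS (by omega)
  · exact absurd ((t2 e).mono hS l1) hn

/-- POSITION -/
theorem position (hS : Sys S) (hA : Adj g g') (H : Dense g S W w) :
    ∃ q, High g S q ∧ Low g S (q + 1 + W + w) := by
  have hA' := hA
  obtain ⟨s, hs, hs1, -⟩ := hA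
  obtain ⟨F, a, hF, H'⟩ := H.cut hs
  choose J u l1 l2 c using H'
  have good : ∀ f : ℕ → ℤ, (∀ t t', t < t' → f t + (W + w) ≤ f t' ∨ f t' + (W + w) ≤ f t) →
      ∃ t, (u (f t))⁻¹ ∉ F := by
    intro f hf
    by_contra hn
    simp only [not_exists, not_not] at hn
    refine Set.infinite_of_injective_forall_mem (f := fun t : ℕ => (u (f t))⁻¹)
      (fun t t' hh => ?_) hn hF
    have t1 := (c (f t)).tl
    have t2 := (c (f t')).tl
    rw [inv_injective hh] at t1
    have f1 := far hS.anti t1 t2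
    have f2 := far hS.anti t2 t1
    have a1 := l1 (f t)
    have a2 := l2 (f t)
    have a3 := l1 (f t')
    have a4 := l2 (f t')
    rcases lt_trichotomy t t' with l | l | l
    · have := hf _ _ l; omega
    · exact l
    · have := hf _ _ l; omega
  obtain ⟨k0, h0⟩ := hS.lo
  obtain ⟨k1, h1⟩ := hS.hi
  have p0 : (0 : ℤ) ≤ W + w := by positivity
  have mu : ∀ t t' : ℕ, t < t' → (t : ℤ) * (W + w) + (W + w) ≤ t' * (W + w) := fun t t' l => by
    have : (t : ℤ) + 1 ≤ t' := by exact_mod_cast l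
    nlinarith
  obtain ⟨t1, g1⟩ := good (fun t => k1 + t * (W + w)) fun t t' l => Or.inl (by
    have := mu _ _ l; omega)
  obtain ⟨t0, g0⟩ := good (fun t => k0 - W - w - t * (W + w)) fun t t' l => Or.inr (by
    have := mu _ _ l; omega)
  have lowE := ((c (k1 + t1 * (W + w))).tri hs hs1 hF H.inj).1 (by
    simpa using (c (k1 + t1 * (W + w))).lo 1 (fun hh => h1 (hS.anti ((le_add_of_nonneg_right
      (by positivity)).trans (l1 _)) hh)) (by simpa using g1))
  have highE := ((c (k0 - W - w - t0 * (W + w))).tri hs hs1 hF H.inj).2 (by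
    simpa using (c (k0 - W - w - t0 * (W + w))).hi 1 (hS.anti (by
      have := l2 (k0 - W - w - t0 * (W + w))
      have := mul_nonneg (Int.natCast_nonneg t0) p0
      omega) h0) (by simpa using g0))
  obtain ⟨q, hq, hmax⟩ := Int.exists_greatest_of_bdd (P := fun m => High g S m)
    ⟨_, fun z hz => (hz.lt hS.anti lowE).le⟩ ⟨_, highE⟩
  exact ⟨q, hq, low_of_not_high hS.anti hA' H fun hh => by have := hmax _ hh; omega⟩

/-- ADJACENT elements have close positions -/
theorem not_high (hS : Antitone S) (hA : Adj g g') (H : Dense g S W w)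
    (hg' : Function.Injective fun n : ℤ => g' ^ n) (hl : Low g S m) :
    ¬ High g' S (m + W + w) := by
  intro hh
  obtain ⟨s, hs, hs1, hs2⟩ := hA
  obtain ⟨F, a, hF, H'⟩ := H.cut hs
  obtain ⟨j, h, l1, l2, c⟩ := H' m
  have hl' : Low g S j := hl.mono hS l1
  have hh' : High g' S (j + w) := hh.mono hS (by omega)
  have nz : ∀ n : ℤ, h⁻¹ * g ^ n ∉ Subgroup.zpowers g := by
    rintro n ⟨b, e⟩
    have e' : g ^ b = h⁻¹ * g ^ n := e
    have e2 : h * g ^ (b - n) = 1 := by rw [zpow_sub, e']; group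
    have := c.tl.zpow (b - n)
    rw [e2] at this
    exact Tails.not_univ (((this.mono subset_union_left).union hl').mono (by simp))
  have s0 : s h⁻¹ = a := by
    obtain ⟨n, h0, hn⟩ := ex_ge ((hl' 1).union (fin_pre H.inj hF h⁻¹ 1)) 0
    rw [mem_union, not_or] at hn
    rw [← c.lo (g ^ n) (by simpa using hn.1) (by simpa using hn.2)]
    by_contra hne
    obtain ⟨i, -, -, hi⟩ := step' (fun u hu _ => hs1 u hu) h⁻¹ h0 (by simpa using Ne.symm hne)
    exact nz i hi
  have hf := (hh' 1).union (fin_pre hg' hF h⁻¹ 1)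
  have val : ∀ n : ℤ, n ∉ {n : ℤ | 1 * g' ^ n * 1 ∈ (S (j + w))ᶜ} ∪ {n | h⁻¹ * g' ^ n * 1 ∈ F} →
      s (h⁻¹ * g' ^ n) ≠ s (h⁻¹ * g' ^ (0 : ℤ)) := fun n hn => by
    rw [mem_union, not_or] at hn
    rw [c.hi (g' ^ n) (by simpa using hn.1) (by simpa using hn.2), zpow_zero, mul_one, s0]
    exact ne_succ a
  obtain ⟨n, h0, hn⟩ := ex_ge hf 0
  obtain ⟨n', h0', hn'⟩ := ex_le hf 0
  obtain ⟨i, i0, -, b, e⟩ := step' hs2 h⁻¹ h0 (val n hn)
  obtain ⟨i', -, i0', b', e'⟩ := step' hs2 h⁻¹ h0' (val n' hn').symm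
  have x : g ^ b = h⁻¹ * g' ^ i := e
  have x' : g ^ b' = h⁻¹ * g' ^ i' := e'
  have ne0 : i ≠ 0 := by
    rintro rfl
    exact nz 0 ⟨b, by simpa using x⟩
  have ne0' : i' ≠ 0 := by
    rintro rfl
    exact nz 0 ⟨b', by simpa using x'⟩
  have e3 : g' ^ (i - i') = g ^ (b - b') := by
    rw [sub_eq_neg_add, sub_eq_neg_add, zpow_add, zpow_add, zpow_neg, zpow_neg, x, x']
    group
  have d1 : i - i' ≠ 0 := by omega
  have d2 : b - b' ≠ 0 := fun h0 => d1 (hg' (show g' ^ (i - i') = g' ^ (0 : ℤ) by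
    rw [e3, h0, zpow_zero, zpow_zero]))
  refine Set.infinite_univ (α := ℤ) ((((hh' 1).preimage (f := fun t => (i - i') * t)
    (mul_right_injective₀ d1).injOn).union ((hl' 1).preimage (f := fun t => (b - b') * t)
      (mul_right_injective₀ d2).injOn)).subset fun t _ => ?_)
  by_cases ht : g' ^ ((i - i') * t) ∈ S (j + w)
  · refine Or.inr ?_
    have := hS (le_add_of_nonneg_right (Int.natCast_nonneg w)) ht
    rw [zpow_mul, e3, ← zpow_mul] at this
    simpa using this
  · exact Or.inl (by simpa using ht)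

theorem low_step {g'' : P} (hS : Antitone S) (hA : Adj g g') (hA' : Adj g' g'') (H : Dense g S W w)
    (H' : Dense g' S W w) (hl : Low g S m) : Low g' S (m + 2 * (W + w)) :=
  (low_of_not_high hS hA' H' (not_high hS hA H H'.inj hl)).mono hS (by omega)

/-- END: no chain of four steps joins `g0` to a far translate -/
theorem endgame {g0 g1 g2 g3 γ : P} {Φ : P →* P} {p : ℕ} (hS : Sys S) (a0 : Adj g0 g1)
    (a1 : Adj g1 g2) (a2 : Adj g2 g3) (a3 : Adj2 g3 (Φ g0)) (d0 : Dense g0 S W w)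
    (d1 : Dense g1 S W w) (d2 : Dense g2 S W w) (d3 : Dense g3 S W w) (d4 : Dense (Φ g0) S W w)
    (hΦ : ∀ k, ∀ y ∈ S k, Φ y * γ ∈ S (k + p)) (hp : 9 * (W + w) + 1 ≤ p) : False := by
  obtain ⟨q, hq, l0⟩ := position hS a0 d0
  have l4 := low_step hS.anti a3.1 a3.2 d3 d4 (low_step hS.anti a2 a3.1 d2 d3
    (low_step hS.anti a1 a2 d1 d2 (low_step hS.anti a0 a1 d0 d1 l0)))
  refine Set.infinite_univ (α := ℤ) (((hq 1).union (l4 γ)).subset fun n _ => ?_)
  by_cases hn : g0 ^ n ∈ S q
  · refine Or.inr ?_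
    have := hS.anti (show q + 1 + W + w + 2 * (W + w) + 2 * (W + w) + 2 * (W + w) + 2 * (W + w) ≤
      q + p by omega) (hΦ q _ hn)
    simpa using this
  · exact Or.inl (by simpa using hn)

end Pool.Agent.MP_7ebdba_gt.ge

end MrgPart2

-- ======== part 3: formerly Pool.Agent.MP_7ebdba_gt.ss.Core
section MrgPart3

-- ======== part 0: formerly Pool.Agent.MP_7ebdba_gt.ge.Spec
section MrgPart0

/-! The orbifold group of the sphere with cone points 2, 2, 2, 3 and the statements of the
geometric half. -/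

namespace Pool.Agent.MP_7ebdba_gt.ge

open ch Set

def rels : Set (FreeGroup (Fin 3)) :=
  {FreeGroup.of 0 * FreeGroup.of 0, FreeGroup.of 1 * FreeGroup.of 1, FreeGroup.of 2 * FreeGroup.of 2,
    (FreeGroup.of 0 * FreeGroup.of 1 * FreeGroup.of 2) ^ 3}

abbrev G : Type := PresentedGroup rels

def gen (i : Fin 3) : G := PresentedGroup.of i
abbrev sg : G := gen 0
abbrev ro : G := gen 1
abbrev nu : G := gen 2
/-- one step up -/
def U : G := sg * ro
/-- one step to the right -/
def R : G := ro * nu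

theorem gen_sq (i : Fin 3) : gen i * gen i = 1 := by
  have : ∀ w ∈ rels, PresentedGroup.mk rels w = 1 := fun _ h => PresentedGroup.one_of_mem h
  fin_cases i
  · exact this _ (Or.inl rfl)
  · exact this _ (Or.inr (Or.inl rfl))
  · exact this _ (Or.inr (Or.inr (Or.inl rfl)))

theorem gen_cube : (sg * ro * nu) ^ 3 = 1 :=
  PresentedGroup.one_of_mem (rels := rels) (Or.inr (Or.inr (Or.inr rfl)))

@[simp] theorem gen_inv (i : Fin 3) : (gen i)⁻¹ = gen i := inv_eq_of_mul_eq_one_right (gen_sq i)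
@[simp] theorem gen_gen (i : Fin 3) (x : G) : gen i * (gen i * x) = x := by
  rw [← mul_assoc, gen_sq, one_mul]

/-- homomorphisms out of `G` -/
def lift {H : Type*} [Group H] (a b c : H) (ha : a * a = 1) (hb : b * b = 1) (hc : c * c = 1)
    (h : (a * b * c) ^ 3 = 1) : G →* H :=
  PresentedGroup.toGroup (f := ![a, b, c]) (by
    rintro r (rfl | rfl | rfl | rfl) <;> simpa)

section
variable {H : Type*} [Group H] {a b c : H} {ha : a * a = 1} {hb : b * b = 1} {hc : c * c = 1}
  {h : (a * b * c) ^ 3 = 1}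
@[simp] theorem lift_sg : lift a b c ha hb hc h sg = a := PresentedGroup.toGroup.of _
@[simp] theorem lift_ro : lift a b c ha hb hc h ro = b := PresentedGroup.toGroup.of _
@[simp] theorem lift_nu : lift a b c ha hb hc h nu = c := PresentedGroup.toGroup.of _
end

theorem hom_ext {H : Type*} [Group H] {f f' : G →* H} (h : ∀ i, f (gen i) = f' (gen i)) : f = f' :=
  PresentedGroup.ext h

/-- induction along right multiplication by the generators -/
theorem ind_right {p : G → Prop} (y : G) (hy : p y) (h : ∀ x i, p x → p (x * gen i)) (x : G) :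
    p x := by
  have key : ∀ z : G, ∀ x, p x → p (x * z) := fun z => by
    have hz : z ∈ Subgroup.closure (Set.range (PresentedGroup.of (rels := rels))) := by
      rw [PresentedGroup.closure_range_of]; trivial
    induction hz using Subgroup.closure_induction'' with
    | one => simp
    | mem z hz => obtain ⟨i, rfl⟩ := hz; exact fun x => h x i
    | inv_mem z hz =>
      obtain ⟨i, rfl⟩ := hz
      exact fun x hx => (gen_inv i).symm ▸ h x i hx
    | mul a b _ _ ha hb => exact fun x hx => by rw [← mul_assoc]; exact hb _ (ha x hx)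
  simpa using key (y⁻¹ * x) y hy

/-- the class modulo the surface group -/
def cls : G →* DihedralGroup 6 :=
  lift (.sr 5) (.sr 0) (.r 3) (by decide) (by decide) (by decide) (by decide)

/-- a positive word; `true` is `U` and `false` is `R` -/
def pw (l : List Bool) : G := (l.map fun b => if b then U else R).prod

/-- conjugates of positive words with at least one `U` -/
def Pos (x : G) : Prop := ∃ γ l, true ∈ l ∧ x = γ * pw l * γ⁻¹

/-- the substitution -/
def sub (b : Bool) : List Bool :=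
  if b then [true, false, false, false, false] else [false, true, false, false, false, false]

/-- row WORDS: the dictionary between the surface group and `G` -/
def WordsStmt : Prop :=
  ∃ (ι : S 2 →* G) (φ : MulAut (S 2)) (F : G →* G) (δ : G), Function.Injective ι ∧
    (∀ x, cls x = 1 ↔ x ∈ ι.range) ∧ (∀ y, ι (Phi y) = U * ι y * U⁻¹) ∧
    (∀ y, r0 y = 1 → ¬ Pos (ι y)) ∧ φ ∈ slopeGrp ∧ (∀ y, ι (φ y) = F (ι y)) ∧
    ∀ b, F (pw [b]) = δ * pw (sub b) * δ⁻¹

/-- the surface group has one end -/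
def OneEnd (P : Type) [Group P] : Prop :=
  ∀ f : P → ZMod 2, (∀ y, {x | f (x * y) ≠ f x}.Finite) → ∃ c, {x | f x ≠ c}.Finite

/-- row NTV: one end, and a nontrivial side function for every element of infinite order -/
def NtvStmt : Prop :=
  OneEnd (S 2) ∧ ∀ g : S 2, (Function.Injective fun n : ℤ => g ^ n) →
    ∃ s, AI0 g s ∧ ∀ c, ¬ FinMod g {x | s x ≠ c}

end Pool.Agent.MP_7ebdba_gt.ge

end MrgPart0

-- ======== part 1: formerly Pool.Agent.MP_7ebdba_gt.ss.Core
section MrgPart1

/-! Words as lists of numbers, substitution tables and reflective checks. The code `2 * k` is the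
generator number `k` and `2 * k + 1` is its inverse. -/

namespace Pool.Agent.MP_7ebdba_gt.SS

section
variable {H : Type*} [Group H]

def evc (φ : ℕ → H) (c : ℕ) : H := if c % 2 = 0 then φ (c / 2) else (φ (c / 2))⁻¹

def ev (φ : ℕ → H) : List ℕ → H
  | [] => 1
  | c :: w => evc φ c * ev φ w

def flip (c : ℕ) : ℕ := Nat.xor c 1

def push (st : List ℕ) (c : ℕ) : List ℕ :=
  match st with
  | [] => [c]
  | d :: r => bif Nat.beq (Nat.xor d c) 1 then r else c :: d :: r

/-- Push a word on a stack, cancelling. Written with recursors for speed in the kernel. -/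
noncomputable def pushW (st w : List ℕ) : List ℕ :=
  List.rec (motive := fun _ => List ℕ → List ℕ) (fun s => s)
    (fun c _ ih s => List.rec (motive := fun _ => List ℕ) (ih [c])
      (fun d r _ => Bool.casesOn (motive := fun _ => List ℕ) (Nat.beq (Nat.xor d c) 1)
        (ih (c :: d :: r)) (ih r)) s) w st

/-- The inverse word, put in front of `a`. -/
noncomputable def invW (w a : List ℕ) : List ℕ :=
  List.rec (motive := fun _ => List ℕ → List ℕ) (fun a => a)
    (fun c _ ih a => ih (Nat.xor c 1 :: a)) w a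

noncomputable def pushI (st w : List ℕ) : List ℕ := pushW st (invW w [])

noncomputable def step (t : List (List ℕ)) (s : List ℕ) (c : ℕ) : List ℕ :=
  Bool.casesOn (motive := fun _ => List ℕ) (Nat.beq (Nat.mod c 2) 0)
    (pushI s (t.getD (Nat.div c 2) [])) (pushW s (t.getD (Nat.div c 2) []))

noncomputable def subW (t : List (List ℕ)) (st w : List ℕ) : List ℕ :=
  List.rec (motive := fun _ => List ℕ → List ℕ) (fun s => s)
    (fun c _ ih s => List.casesOn (motive := fun _ => List ℕ) (step t s c) (ih [])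
      fun d r => ih (d :: r)) w st

theorem pushW_eq (st w : List ℕ) : pushW st w = w.foldl push st := by
  induction w generalizing st with
  | nil => rfl
  | cons c w ih =>
    rw [List.foldl_cons, ← ih]
    cases st with
    | nil => rfl
    | cons d r =>
      change Bool.casesOn (motive := fun _ => List ℕ) (Nat.beq (Nat.xor d c) 1)
        (pushW (c :: d :: r) w) (pushW r w) = _
      simp only [push]
      cases Nat.beq (Nat.xor d c) 1 <;> rfl

theorem subW_eq (t : List (List ℕ)) (st w : List ℕ) : subW t st w = w.foldl (step t) st := by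
  induction w generalizing st with
  | nil => rfl
  | cons c w ih =>
    rw [List.foldl_cons, ← ih]
    change List.casesOn (motive := fun _ => List ℕ) (step t st c) (subW t [] w)
      (fun d r => subW t (d :: r) w) = _
    cases step t st c <;> rfl

/-- Composition of tables, `t` after `u`. -/
noncomputable def cmp (t u : List (List ℕ)) : List (List ℕ) := u.map fun w => (subW t [] w).reverse

theorem ev_append (φ : ℕ → H) (u v : List ℕ) : ev φ (u ++ v) = ev φ u * ev φ v := by
  induction u with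
  | nil => simp [ev]
  | cons c u ih => simp [ev, ih, mul_assoc]

theorem evc_flip (φ : ℕ → H) (c : ℕ) : evc φ (flip c) = (evc φ c)⁻¹ := by
  have h2 : (c ^^^ 1) / 2 = c / 2 := by rw [Nat.xor_div_two]; simp
  have h1 : (c ^^^ 1) % 2 = (c + 1) % 2 := Nat.xor_mod_two_eq
  change (if (c ^^^ 1) % 2 = 0 then φ ((c ^^^ 1) / 2) else (φ ((c ^^^ 1) / 2))⁻¹) = _
  unfold evc
  rw [h1, h2]
  rcases Nat.mod_two_eq_zero_or_one c with h | h
  · rw [if_neg (by omega), if_pos h]
  · rw [if_pos (by omega), if_neg (by omega), inv_inv]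

theorem ev_rev_cons (φ : ℕ → H) (c : ℕ) (st : List ℕ) :
    ev φ (c :: st).reverse = ev φ st.reverse * evc φ c := by
  simp [ev_append, ev]

theorem ev_push (φ : ℕ → H) (st : List ℕ) (c : ℕ) :
    ev φ (push st c).reverse = ev φ st.reverse * evc φ c := by
  cases st with
  | nil => simp [push, ev]
  | cons d r =>
    simp only [push]
    cases h : Nat.beq (Nat.xor d c) 1 with
    | true =>
      have e : d = flip c := by
        have h1 : d ^^^ c = 1 := Nat.eq_of_beq_eq_true h
        change d = c ^^^ 1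
        rw [← h1, Nat.xor_comm d, ← Nat.xor_assoc, Nat.xor_self, Nat.zero_xor]
      rw [cond_true, ev_rev_cons, e, evc_flip, inv_mul_cancel_right]
    | false => rw [cond_false, ev_rev_cons]

theorem ev_pushW (φ : ℕ → H) (st w : List ℕ) :
    ev φ (pushW st w).reverse = ev φ st.reverse * ev φ w := by
  rw [pushW_eq]
  induction w generalizing st with
  | nil => simp [ev]
  | cons c w ih => rw [List.foldl_cons, ih, ev_push, ev, mul_assoc]

theorem ev_invW (φ : ℕ → H) (w a : List ℕ) : ev φ (invW w a) = (ev φ w)⁻¹ * ev φ a := by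
  induction w generalizing a with
  | nil => simp [invW, ev]
  | cons c w ih =>
    change ev φ (invW w (flip c :: a)) = _
    rw [ih, ev, ev, evc_flip, mul_inv_rev, mul_assoc]

theorem ev_pushI (φ : ℕ → H) (st w : List ℕ) :
    ev φ (pushI st w).reverse = ev φ st.reverse * (ev φ w)⁻¹ := by
  rw [pushI, ev_pushW, ev_invW, ev, mul_one]

theorem ev_subW (φ : ℕ → H) (t : List (List ℕ)) (st w : List ℕ) :
    ev φ (subW t st w).reverse = ev φ st.reverse * ev (fun k => ev φ (t.getD k [])) w := by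
  rw [subW_eq]
  induction w generalizing st with
  | nil => simp [ev]
  | cons c w ih =>
    rw [List.foldl_cons, ih, ev, ← mul_assoc]
    congr 1
    unfold step
    cases h : Nat.beq (Nat.mod c 2) 0 with
    | true =>
      rw [evc, if_pos (show c % 2 = 0 from Nat.eq_of_beq_eq_true h)]
      exact ev_pushW _ _ _
    | false =>
      rw [evc, if_neg (show ¬ c % 2 = 0 from Nat.ne_of_beq_eq_false h)]
      exact ev_pushI _ _ _

theorem map_ev {H' : Type*} [Group H'] (p : H →* H') (φ : ℕ → H) (w : List ℕ) :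
    p (ev φ w) = ev (fun k => p (φ k)) w := by
  induction w with
  | nil => simp [ev]
  | cons c w ih =>
    rw [ev, ev, map_mul, ih]
    congr 1
    unfold evc
    split_ifs <;> simp

/-- Delete the letters with generator number `a` or `b`. -/
def del (a b : ℕ) (w : List ℕ) : List ℕ :=
  w.filter fun c => !(Nat.beq (c / 2) a || Nat.beq (c / 2) b)

theorem ev_del (φ : ℕ → H) (a b : ℕ) (ha : φ a = 1) (hb : φ b = 1) (w : List ℕ) :
    ev φ (del a b w) = ev φ w := by
  unfold del
  induction w with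
  | nil => rfl
  | cons c w ih =>
    rw [List.filter_cons]
    split_ifs with h
    · rw [ev, ev, ih]
    · rw [ev, ih]
      have : φ (c / 2) = 1 := by
        simp only [Bool.not_eq_true', Bool.not_eq_false, Bool.or_eq_true] at h
        rcases h with h | h
        · rw [Nat.eq_of_beq_eq_true h, ha]
        · rw [Nat.eq_of_beq_eq_true h, hb]
      simp [evc, this]

/-- Insert rotations of relators and reduce; the certificate lists position, relator number and
rotation. -/
noncomputable def cert (R : List (List ℕ)) (w : List ℕ) : List (ℕ × ℕ × ℕ) → Bool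
  | [] => w.isEmpty
  | (p, j, k) :: l => cert R (pushW (pushW (pushW (pushW [] (w.take p)) ((R.getD j []).drop k))
      ((R.getD j []).take k)) (w.drop p)).reverse l

theorem ev_of_cert (φ : ℕ → H) (R : List (List ℕ)) (hR : ∀ r ∈ R, ev φ r = 1) (w : List ℕ)
    (l : List (ℕ × ℕ × ℕ)) (h : cert R w l = true) : ev φ w = 1 := by
  induction l generalizing w with
  | nil =>
    rw [cert, List.isEmpty_iff] at h
    rw [h, ev]
  | cons x l ih =>
    obtain ⟨p, j, k⟩ := x
    have h1 := ih _ h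
    have h2 : ev φ (R.getD j []) = 1 := by
      rw [List.getD_eq_getElem?_getD]
      cases hj : R[j]? with
      | none => rfl
      | some r => exact hR r (List.mem_of_getElem? hj)
    rw [← List.take_append_drop k (R.getD j []), ev_append, mul_eq_one_comm] at h2
    simp only [ev_pushW, List.reverse_nil, ev, one_mul] at h1
    rw [mul_assoc (ev φ (w.take p)), h2, mul_one, ← ev_append, List.take_append_drop] at h1
    exact h1

/-- The word `u * w * v⁻¹ * w⁻¹`. -/
noncomputable def cj (u w v : List ℕ) : List ℕ := (pushI (pushI (pushW (pushW [] u) w) v) w).reverse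

theorem ev_cj (φ : ℕ → H) (u w v : List ℕ) (h : ev φ (cj u w v) = 1) :
    ev φ u = ev φ w * ev φ v * (ev φ w)⁻¹ := by
  simp only [cj, ev_pushI, ev_pushW, List.reverse_nil, ev, one_mul] at h
  rw [← mul_inv_eq_one, ← h]
  group

end

/-- The generator with number `k`. -/
def gen (g k : ℕ) : F g :=
  if h : k / 2 < g then FreeGroup.of (⟨k / 2, h⟩, k % 2 == 1) else 1

/-- The number of a generator. -/
def num {g : ℕ} (x : Fin g × Bool) : ℕ := 2 * x.1.val + x.2.toNat

theorem num_lt {g : ℕ} (x : Fin g × Bool) : num x < 2 * g := by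
  have := x.1.2
  have := Bool.toNat_le x.2
  unfold num
  omega

theorem gen_num {g : ℕ} (x : Fin g × Bool) : gen g (num x) = FreeGroup.of x := by
  obtain ⟨i, b⟩ := x
  have h1 : num (i, b) / 2 = i.val := by
    cases b
    · simp [num]
    · simp only [num, Bool.toNat_true]
      omega
  have h2 : (num (i, b) % 2 == 1) = b := by cases b <;> simp [num]
  unfold gen
  rw [dif_pos (by rw [h1]; exact i.2)]
  simp only [h1, h2]

/-- The homomorphism given by a table. -/
def hom (g g' : ℕ) (t : List (List ℕ)) : F g →* F g' :=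
  FreeGroup.lift fun x => ev (gen g') (t.getD (num x) [])

theorem hom_of (g g' : ℕ) (t : List (List ℕ)) (x : Fin g × Bool) :
    hom g g' t (FreeGroup.of x) = ev (gen g') (t.getD (num x) []) := by simp [hom]

theorem hom_gen {g g' : ℕ} {t : List (List ℕ)} (ht : t.length = 2 * g) (k : ℕ) :
    hom g g' t (gen g k) = ev (gen g') (t.getD k []) := by
  unfold gen
  split_ifs with h
  · rw [hom_of]
    congr 2
    unfold num
    rcases Nat.mod_two_eq_zero_or_one k with h2 | h2 <;> simp [h2] <;> omega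
  · rw [map_one, List.getD_eq_default _ _ (by omega), ev]

theorem hom_ev {g g' : ℕ} {t : List (List ℕ)} (ht : t.length = 2 * g) (w : List ℕ) :
    hom g g' t (ev (gen g) w) = ev (gen g') (subW t [] w).reverse := by
  rw [ev_subW, map_ev]
  simp only [hom_gen ht, List.reverse_nil, ev, one_mul]

theorem hom_cmp {g g' g'' : ℕ} {t : List (List ℕ)} (ht : t.length = 2 * g')
    (u : List (List ℕ)) : hom g g'' (cmp t u) = (hom g' g'' t).comp (hom g g' u) := by
  refine FreeGroup.ext_hom _ _ fun x => ?_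
  rw [MonoidHom.comp_apply, hom_of, hom_of, hom_ev ht]
  congr 1
  unfold cmp
  rw [List.getD_eq_getElem?_getD, List.getD_eq_getElem?_getD, List.getElem?_map]
  cases u[num x]? <;> simp [subW_eq]

/-- The identity table. -/
def idT (g : ℕ) : List (List ℕ) := (List.range (2 * g)).map fun k => [2 * k]

theorem hom_idT (g : ℕ) : hom g g (idT g) = MonoidHom.id _ := by
  refine FreeGroup.ext_hom _ _ fun x => ?_
  rw [hom_of, idT, List.getD_eq_getElem?_getD, List.getElem?_map,
    List.getElem?_range (num_lt x)]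
  simp [ev, evc, gen_num]

/-- The automorphism of the free group given by two inverse tables. -/
def aut (g : ℕ) (t u : List (List ℕ)) (ht : t.length = 2 * g) (hu : u.length = 2 * g)
    (h1 : cmp t u = idT g) (h2 : cmp u t = idT g) : F g ≃* F g :=
  MonoidHom.toMulEquiv (hom g g t) (hom g g u) (by rw [← hom_cmp hu, h2, hom_idT])
    (by rw [← hom_cmp ht, h1, hom_idT])

end Pool.Agent.MP_7ebdba_gt.SS

end MrgPart1

-- marker of a merged file
example : 731051 + 103626 = 731051 + 103626 := rfl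

end MrgPart3

-- marker of a merged file
example : 731051 + 103626 = 731051 + 103626 := rfl
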