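import Pool.Agent.MP_7ebdba_gt.ss.Alg

/-! The triples are group trisections of type (4; 2, 0, 2). -/

namespace Pool.Agent.MP_7ebdba_gt.SS

open Subgroup

theorem freeQuot_of {g n : ℕ} {H : Type*} [Group H] (f : S g →* H) (e : H ≃* FreeGroup (Fin n))
    (hf : Function.Surjective f) : FreeQuot f.ker n :=
  ⟨e.toMonoidHom.comp f, e.surjective.comp hf, MonoidHom.ker_comp_of_injective _ _ e.injective⟩

/-- The free group on two pairs of letters has rank four. -/
noncomputable def eF2 : F 2 ≃* FreeGroup (Fin 4) :=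
  FreeGroup.freeGroupCongr (Fintype.equivFinOfCardEq (by simp))

/-- The free product of two free groups of rank two. -/
def eCo : Monoid.Coprod F2 F2 ≃* FreeGroup (Fin 2 ⊕ Fin 2) :=
  MonoidHom.toMulEquiv (Monoid.Coprod.lift (FreeGroup.map Sum.inl) (FreeGroup.map Sum.inr))
    (FreeGroup.lift (Sum.elim (fun k => Monoid.Coprod.inl (FreeGroup.of k))
      fun k => Monoid.Coprod.inr (FreeGroup.of k)))
    (Monoid.Coprod.hom_ext (FreeGroup.ext_hom _ _ fun k => by simp)
      (FreeGroup.ext_hom _ _ fun k => by simp))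
    (FreeGroup.ext_hom _ _ fun k => by cases k <;> simp)

theorem dbl_surj {r : S 2 →* F2} (hr : Function.Surjective r) : Function.Surjective (dbl r) := by
  intro y
  change y ∈ (dbl r).range
  induction y using Monoid.Coprod.induction_on with
  | inl m =>
    obtain ⟨w, rfl⟩ := hr.comp (mk_surjective 2) m
    exact ⟨_, (dbl_iot r w).1⟩
  | inr m =>
    obtain ⟨w, rfl⟩ := hr.comp (mk_surjective 2) m
    exact ⟨_, (dbl_iot r w).2⟩
  | mul a b ha hb => exact mul_mem ha hb

theorem fold_false (θ : F 2 ≃* F 2) (h : θ zeta = zeta) (w : F 2) :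
    fold θ h (iot false w) = w := glue_false _ _ _ w

theorem fold_true (θ : F 2 ≃* F 2) (h : θ zeta = zeta) (w : F 2) :
    fold θ h (iot true w) = θ w := glue_true _ _ _ w

theorem hom_ext4 {H : Type*} [Group H] {f f' : S 4 →* H}
    (h : ∀ c w, f (iot c w) = f' (iot c w)) : f = f' := by
  refine hom_ext fun y => ?_
  obtain ⟨c, x, e⟩ := of_eq_iotF y
  rw [e]
  exact h c _

theorem sup_fold {r : S 2 →* F2} (θ : F 2 ≃* F 2) (h : θ zeta = zeta) (κ : F2 →* F2)
    (hκ : ∀ w, κ (r (mk 2 w)) = r (mk 2 (θ w))) :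
    (dbl r).ker ⊔ (fold θ h).ker = ((r.comp (mk 2)).comp (fold θ h)).ker := by
  refine le_antisymm (sup_le (fun x hx => ?_) fun x hx => ?_) fun x hx => ?_
  · have e : (r.comp (mk 2)).comp (fold θ h) =
        (Monoid.Coprod.lift (MonoidHom.id _) κ).comp (dbl r) := by
      refine hom_ext4 fun c w => ?_
      cases c
      · simp [fold_false, (dbl_iot r w).1]
      · simp [fold_true, (dbl_iot r w).2, hκ]
    rw [e, MonoidHom.mem_ker, MonoidHom.comp_apply, MonoidHom.mem_ker.1 hx, map_one]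
  · rw [MonoidHom.mem_ker, MonoidHom.comp_apply, MonoidHom.mem_ker.1 hx, map_one]
  · rw [← mul_inv_cancel_left (iot false (fold θ h x)) x]
    refine mul_mem (mem_sup_left ?_) (mem_sup_right ?_)
    · rw [MonoidHom.mem_ker, (dbl_iot r _).1, show r (mk 2 (fold θ h x)) = 1 from hx, map_one]
    · rw [MonoidHom.mem_ker, map_mul, map_inv, fold_false, inv_mul_cancel]

theorem freeQuot_sup {r : S 2 →* F2} (hr : Function.Surjective r) (θ : F 2 ≃* F 2)
    (h : θ zeta = zeta) (κ : F2 →* F2) (hκ : ∀ w, κ (r (mk 2 w)) = r (mk 2 (θ w))) :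
    FreeQuot ((dbl r).ker ⊔ (fold θ h).ker) 2 := by
  refine ⟨_, fun y => ?_, (sup_fold θ h κ hκ).symm⟩
  obtain ⟨w, rfl⟩ := hr.comp (mk_surjective 2) y
  exact ⟨iot false w, by simp [fold_false]⟩

theorem sup_top : (fold (MulEquiv.refl _) rfl).ker ⊔ (fold phi phi_zeta).ker = ⊤ := by
  set M := (fold (MulEquiv.refl _) rfl).ker ⊔ (fold phi phi_zeta).ker with hM
  have h1 : ∀ w, w⁻¹ * phi w ∈ M.comap (iot false) := fun w => by
    have e : iot false (w⁻¹ * phi w) =
        ((iot false w)⁻¹ * iot true w) * ((iot true w)⁻¹ * iot false (phi w)) := by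
      simp [mul_assoc]
    rw [mem_comap, e]
    refine mul_mem (mem_sup_left ?_) (mem_sup_right ?_)
    · rw [MonoidHom.mem_ker, map_mul, map_inv, fold_false _ rfl, fold_true _ rfl]
      exact inv_mul_cancel w
    · simp [MonoidHom.mem_ker, fold_false, fold_true]
  have h2 : ∀ x : Fin 2 × Bool, ∃ y z : Fin 2 × Bool,
      FreeGroup.of x = ((FreeGroup.of y)⁻¹ * phi (FreeGroup.of y))⁻¹ ∨
      FreeGroup.of x = (FreeGroup.of y)⁻¹ * phi (FreeGroup.of y) *
        ((FreeGroup.of z)⁻¹ * phi (FreeGroup.of z))⁻¹ := by decide +kernel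
  have h3 : M.comap (iot false) = ⊤ := by
    rw [eq_top_iff, ← FreeGroup.closure_range_of, closure_le]
    rintro _ ⟨x, rfl⟩
    obtain ⟨y, z, e | e⟩ := h2 x
    · exact e ▸ inv_mem (h1 _)
    · exact e ▸ mul_mem (h1 _) (inv_mem (h1 _))
  refine eq_top_iff.2 fun x _ => ?_
  rw [← mul_inv_cancel_left (iot false (fold phi phi_zeta x)) x]
  refine mul_mem (mem_comap.1 (h3 ▸ mem_top _)) (mem_sup_right ?_)
  rw [MonoidHom.mem_ker, map_mul, map_inv, fold_false, inv_mul_cancel]

theorem isTri_TT {r : S 2 →* F2} (hr : Function.Surjective r)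
    (hp : ∀ x, r x = 1 → r (Phi x) = 1) : IsTri (TT r) ![2, 0, 2] := by
  obtain ⟨s, hs⟩ := exists_sec hr
  have hf : ∀ (θ : F 2 ≃* F 2) (h : θ zeta = zeta), FreeQuot (fold θ h).ker 4 := fun θ h =>
    freeQuot_of _ eF2 fun w => ⟨_, fold_false θ h w⟩
  intro i
  fin_cases i
  · exact ⟨freeQuot_of _ (eCo.trans (FreeGroup.freeGroupCongr finSumFinEquiv)) (dbl_surj hr),
      freeQuot_sup hr _ _ (MonoidHom.id _) fun _ => rfl⟩
  · refine ⟨hf _ _, 1, fun y => ⟨1, Subsingleton.elim (α := FreeGroup (Fin 0)) _ _⟩, ?_⟩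
    exact MonoidHom.ker_one.trans sup_top.symm
  · refine ⟨hf _ _, ?_⟩
    change FreeQuot ((fold phi phi_zeta).ker ⊔ (dbl r).ker) 2
    rw [sup_comm]
    refine freeQuot_sup hr _ _ ((r.comp (mk 2)).comp (phi.toMonoidHom.comp s)) fun w => ?_
    have := hp (mk 2 ((s (r (mk 2 w)))⁻¹ * w)) (by simp [hs])
    rw [show Phi (mk 2 ((s (r (mk 2 w)))⁻¹ * w)) = mk 2 (phi ((s (r (mk 2 w)))⁻¹ * w)) from rfl,
      map_mul, map_mul, map_mul, map_inv, map_inv, map_inv, inv_mul_eq_one] at this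
    exact this

end Pool.Agent.MP_7ebdba_gt.SS
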