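import Pool.Agent.MP_7ebdba_gt.ss.Chk
import Pool.Agent.MP_7ebdba_gt.ss.Tri

/-! Part II: all the triples are trisections that become standard after two stabilisations. -/

namespace Pool.Agent.MP_7ebdba_gt.SS

open Subgroup

theorem hom_tauH : hom 2 2 tauHt = tauH := FreeGroup.ext_hom _ _ (by decide +kernel)
theorem hom_tauI : hom 2 2 tauIt = tauI := FreeGroup.ext_hom _ _ (by decide +kernel)
theorem hom_tinfH : hom 2 2 tinfHt = tinfH := FreeGroup.ext_hom _ _ (by decide +kernel)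
theorem hom_tinfI : hom 2 2 tinfIt = tinfI := FreeGroup.ext_hom _ _ (by decide +kernel)
theorem hom_phiH : hom 2 2 phiHt = phiH := FreeGroup.ext_hom _ _ (by decide +kernel)

theorem theta : ∃ f f', Inv f f' ∧ Half f (tauI.comp tauI) ∧ Half f' (tauH.comp tauH) ∧
    Keep3 f ∧ Keep3 f' := by
  refine ⟨_, _, inv_A6.symm.comp (inv_A5.symm.comp (inv_TT.comp (inv_TT.comp (inv_Pc.comp
    (inv_Pd.comp (inv_Pb.symm.comp (inv_Pa.symm.comp (inv_A5.comp inv_A6)))))))), ?_, ?_,
    fun w hw => stf1 _ (stf2 _ (stf3 _ (stf4 _ (stf5 _ (stf6 _ (stf7 _ (stf8 _ (stf9 _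
      (stf10 w hw))))))))),
    fun w hw => stb1 _ (stb2 _ (stb3 _ (stb4 _ (stb5 _ (stb6 _ (stb7 _ (stb8 _ (stb9 _
      (stb10 w hw)))))))))⟩
  · have := half_A6i.comp (half_A5i.comp (half_TT.comp (half_TT.comp (half_Pc.comp
      (half_Pd.comp (half_Pbi.comp (half_Pai.comp (half_A5.comp half_A6))))))))
    simpa only [hom_idT, MonoidHom.id_comp, MonoidHom.comp_id, hom_tauI] using this
  · have := ((((((((half_A6i.comp half_A5i).comp half_Pa).comp half_Pb).comp half_Pdi).comp
      half_Pci).comp half_TTi).comp half_TTi).comp half_A5).comp half_A6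
    simpa only [hom_idT, MonoidHom.id_comp, MonoidHom.comp_id, hom_tauH] using this

/-- The table that kills one letter of each handle. -/
def qt (l : List Bool) : List (List ℕ) :=
  l.zipIdx.flatMap fun p => bif p.1 then [[4 * p.2], []] else [[], [4 * p.2 + 2]]

/-- The projections whose kernels form a standard trisection. -/
def Q (g : ℕ) (i : Fin 3) : F g →* F g :=
  hom g g (qt ((([1, 2, 1, 2] : List (Fin 3)).take g).map fun j => decide (i = j)))

theorem std_step {g : ℕ} (j : Fin 3) (hs : Standard g (mt fun i => (Q g i).ker))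
    (h : ∀ i, Q g i (rel g) = 1 ∧ (∀ x, Q g i (Q g i (FreeGroup.of x)) = Q g i (FreeGroup.of x)) ∧
      (∀ x, Q (g + 1) i (incl g (FreeGroup.of x)) = incl g (Q g i (FreeGroup.of x))) ∧
      Q (g + 1) i (FreeGroup.of (Fin.last g, decide (i = j))) = 1 ∧
      Q (g + 1) i (FreeGroup.of (Fin.last g, !decide (i = j))) =
        FreeGroup.of (Fin.last g, !decide (i = j))) :
    Standard (g + 1) (mt fun i => (Q (g + 1) i).ker) := by
  have := Standard.stab j hs
  rw [stab_mt _ (fun _ => MonoidHom.normal_ker _) fun i => (h i).1] at this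
  rwa [← funext fun i => up_ker (h i).2.1 (h i).2.2.1 (h i).2.2.2.1 (h i).2.2.2.2]

theorem std0 : Standard 0 (mt fun i => (Q 0 i).ker) := by
  have : (mt fun i => (Q 0 i).ker) = fun _ => ⊤ := by
    funext i
    refine eq_top_iff.2 fun x _ => ?_
    obtain ⟨w, rfl⟩ := mk_surjective 0 x
    exact ⟨w, Subsingleton.elim (α := F 0) _ _, rfl⟩
  rw [this]
  exact Standard.zero

theorem std4 : Standard 4 (mt fun i => (Q 4 i).ker) :=
  std_step 2 (std_step 1 (std_step 2 (std_step 1 std0 (by decide +kernel)) (by decide +kernel))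
    (by decide +kernel)) (by decide +kernel)

def p14 : List (List ℕ) := [[0], [2], [2], [0], [14], [12], [12], [14]]

theorem D_r0 : D (r0.comp (mk 2)).ker = (hom 4 4 p14).ker := by
  refine le_antisymm (normalClosure_le_normal ?_) fun w hw => ?_
  · have key : ∀ c, ∀ w ∈ (r0.comp (mk 2)).ker, iotF c w ∈ (hom 4 4 p14).ker := fun c w hw => by
      have e : (hom 4 4 p14).comp (iotF c) = ((iotF c).comp (FreeGroup.map fun k : Fin 2 =>
          ((0 : Fin 2), decide (k = 1)))).comp (r0.comp (mk 2)) := by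
        cases c <;> exact FreeGroup.ext_hom _ _ (by decide +kernel)
      have := DFunLike.congr_fun e w
      rw [MonoidHom.comp_apply, MonoidHom.comp_apply _ (r0.comp (mk 2)), MonoidHom.mem_ker.1 hw,
        map_one] at this
      exact this
    rintro _ (⟨w, hw, rfl⟩ | ⟨w, hw, rfl⟩) <;> exact key _ w hw
  · have h : (QuotientGroup.mk' (D (r0.comp (mk 2)).ker)).comp (hom 4 4 p14) =
        QuotientGroup.mk' _ := by
      refine FreeGroup.ext_hom _ _ fun y => QuotientGroup.eq.2 ?_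
      have : ∀ y : Fin 4 × Bool, ∃ c, ∃ x x' : Fin 2 × Bool,
          (hom 4 4 p14 (FreeGroup.of y))⁻¹ * FreeGroup.of y =
            iotF c ((FreeGroup.of x)⁻¹ * FreeGroup.of x') ∧
          r0.comp (mk 2) ((FreeGroup.of x)⁻¹ * FreeGroup.of x') = 1 := by decide +kernel
      obtain ⟨c, x, x', e, h⟩ := this y
      exact e ▸ mem_D c h
    have := DFunLike.congr_fun h w
    rw [MonoidHom.comp_apply, MonoidHom.mem_ker.1 hw, map_one] at this
    exact (QuotientGroup.eq_one_iff w).1 this.symm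

theorem ker_step' {g : ℕ} {p f q : List (List ℕ)}
    (h : p.length = 2 * g ∧ f.length = 2 * g ∧ cmp p f = cmp (cmp p f) q) :
    ∀ w ∈ (hom g g q).ker, hom g g f w ∈ (hom g g p).ker :=
  ker_step h.1 (by simpa [cmp] using h.2.1) h.2.2

theorem std_r0 : Standard 4 (mt (T4 (r0.comp (mk 2)).ker)) := by
  refine Standard.iso (iso_mt (hom 4 4 th0) (hom 4 4 th0i) ?_ ?_ (by decide +kernel)
    (fun i => ?_) fun i => ?_) std4
  · rw [← hom_cmp (by decide +kernel), show cmp th0 th0i = idT 4 by decide +kernel, hom_idT]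
  · rw [← hom_cmp (by decide +kernel), show cmp th0i th0 = idT 4 by decide +kernel, hom_idT]
  · unfold T4
    rw [D_r0]
    fin_cases i <;> exact ker_step' (by decide +kernel)
  · unfold T4
    rw [D_r0]
    fin_cases i <;> exact ker_step' (by decide +kernel)

theorem r0_surj : Function.Surjective r0 := by
  have : r0.comp ((mk 2).comp (FreeGroup.map fun k : Fin 2 => ((0 : Fin 2), decide (k = 1)))) =
      MonoidHom.id _ := FreeGroup.ext_hom _ _ (by decide +kernel)
  exact fun y => ⟨mk 2 (FreeGroup.map _ y), DFunLike.congr_fun this y⟩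

theorem r0_phi (x : S 2) (h : r0 x = 1) : r0 (Phi x) = 1 := by
  have e : r0.comp Phi.toMonoidHom = (FreeGroup.lift
      ![FreeGroup.of 0 * FreeGroup.of 1 * (FreeGroup.of 0)⁻¹,
        FreeGroup.of 1 * (FreeGroup.of 0)⁻¹]).comp r0 := hom_ext (by decide +kernel)
  have := DFunLike.congr_fun e x
  rw [MonoidHom.comp_apply, MonoidHom.comp_apply, h, map_one] at this
  exact this

theorem tau_phi (x : S 2) : IsConj (Phi (Tau x)) (Tau (Phi x)) := by
  have e : (mk 2).comp (hom 2 2 (cmp tauHt phiHt)) =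
      (MulAut.conj (mk 2 (ev (gen 2) [6, 4, 7, 0, 3, 1]))).toMonoidHom.comp
        ((mk 2).comp (hom 2 2 (cmp phiHt tauHt))) := by
    refine FreeGroup.ext_hom _ _ fun y => ?_
    have h : ∀ y : Fin 2 × Bool, ∃ l ∈ [[], [(6, 1, 5)]], cert [z0, z0i]
        (cj ((cmp tauHt phiHt).getD (num y) []) [6, 4, 7, 0, 3, 1]
          ((cmp phiHt tauHt).getD (num y) [])) l = true := by decide +kernel
    obtain ⟨l, -, hl⟩ := h y
    have hR : ∀ r ∈ [z0, z0i], ev (gen 2) r = rel 2 ∨ ev (gen 2) r = (rel 2)⁻¹ := by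
      decide +kernel
    have := ev_cj _ _ _ _ (ev_of_cert (fun k => mk 2 (gen 2 k)) _ (fun r hr => by
      rw [← map_ev]
      rcases hR r hr with h | h <;> simp [h, mk_rel]) _ l hl)
    rw [← map_ev, ← map_ev, ← map_ev] at this
    simpa [hom_of] using this
  obtain ⟨w, rfl⟩ := mk_surjective 2 x
  have := DFunLike.congr_fun e w
  rw [hom_cmp (g' := 2) (by decide +kernel), hom_cmp (g' := 2) (by decide +kernel), hom_tauH,
    hom_phiH] at this
  exact isConj_iff.2 ⟨mk 2 (ev (gen 2) [6, 4, 7, 0, 3, 1]), this.symm⟩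

theorem slope_phi {θ : MulAut (S 2)} (h : θ ∈ slopeGrp) (x : S 2) :
    IsConj (Phi (θ x)) (θ (Phi x)) := by
  have hm : ∀ a b : MulAut (S 2), (∀ x, IsConj (Phi (a x)) (a (Phi x))) →
      (∀ x, IsConj (Phi (b x)) (b (Phi x))) → ∀ x, IsConj (Phi ((a * b) x)) ((a * b) (Phi x)) :=
    fun a b ha hb x => (ha (b x)).trans (a.toMonoidHom.map_isConj (hb x))
  induction h using closure_induction generalizing x with
  | mem a ha =>
    rcases ha with (rfl | rfl) | ⟨y, rfl⟩
    · obtain ⟨w, rfl⟩ := mk_surjective 2 x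
      have e : phiH.comp tinfH = tinfH.comp phiH := FreeGroup.ext_hom _ _ (by decide +kernel)
      have : Phi (Tinf (mk 2 w)) = Tinf (Phi (mk 2 w)) :=
        congrArg (mk 2) (DFunLike.congr_fun e w)
      rw [this]
    · rw [sq]
      exact hm _ _ tau_phi tau_phi x
    · refine IsConj.trans (b := Phi x) (isConj_iff.2 ⟨(Phi y)⁻¹, ?_⟩) (isConj_iff.2 ⟨y, rfl⟩)
      simp [mul_assoc]
  | one => exact IsConj.refl _
  | mul a b _ _ ha hb => exact hm a b ha hb x
  | inv a _ ha =>
    have := (a⁻¹ : MulAut (S 2)).toMonoidHom.map_isConj (ha ((a⁻¹ : MulAut (S 2)) x))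
    simpa using this.symm

/-- The kernel at the free level of the filling attached to `θ`. -/
def NN (θ : MulAut (S 2)) : Subgroup (F 2) :=
  ((r0.comp (θ⁻¹ : MulAut (S 2)).toMonoidHom).comp (mk 2)).ker

theorem zeta_NN (θ : MulAut (S 2)) : zeta ∈ NN θ := by simp [NN, MonoidHom.mem_ker, mk_rel]

theorem NN_mul (a θ : MulAut (S 2)) (η : F 2 →* F 2)
    (h : ∀ w, (a⁻¹ : MulAut (S 2)) (mk 2 w) = mk 2 (η w)) : NN (a * θ) = (NN θ).comap η := by
  ext w
  simp only [NN, mem_comap, MonoidHom.mem_ker, MonoidHom.comp_apply, mul_inv_rev, ← h]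
  rfl

theorem NN_conj (y : S 2) (θ : MulAut (S 2)) : NN (MulAut.conj y * θ) = NN θ := by
  ext w
  simp only [NN, MonoidHom.mem_ker, MonoidHom.comp_apply, mul_inv_rev]
  change r0 ((θ⁻¹ : MulAut (S 2)) (y⁻¹ * mk 2 w * y)) = 1 ↔ r0 ((θ⁻¹ : MulAut (S 2)) (mk 2 w)) = 1
  simp only [map_mul, map_inv]
  rw [mul_assoc, inv_mul_eq_one, right_eq_mul]

theorem std_NN {θ : MulAut (S 2)} (h : θ ∈ slopeGrp) : Standard 6 (mt (T6 (NN θ))) := by
  obtain ⟨f, f', hi, hf, hf', k, k'⟩ := theta
  have e1 : tauI.comp tauH = MonoidHom.id _ := MonoidHom.ext tau.left_inv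
  have e2 : tauH.comp tauI = MonoidHom.id _ := MonoidHom.ext tau.right_inv
  have e3 : tinfI.comp tinfH = MonoidHom.id _ := MonoidHom.ext tinf.left_inv
  have e4 : tinfH.comp tinfI = MonoidHom.id _ := MonoidHom.ext tinf.right_inv
  induction h using closure_induction_left with
  | one =>
    rw [← stab2_eq (zeta_NN 1)]
    exact (std_r0.stab 0).stab 0
  | mul_left a ha θ _ ih =>
    rcases ha with (rfl | rfl) | ⟨y, rfl⟩
    · rw [NN_mul _ _ tinfI fun _ => rfl]
      exact ih.iso (move inv_TF.symm (hom_tinfI ▸ half_TFi) (hom_tinfH ▸ half_TF) keep_TFi keep_TF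
        e3 (zeta_NN θ))
    · rw [NN_mul _ _ (tauI.comp tauI) fun _ => rfl]
      refine ih.iso (move hi hf hf' k k' ?_ (zeta_NN θ))
      rw [MonoidHom.comp_assoc, ← MonoidHom.comp_assoc tauH, e1, MonoidHom.id_comp, e1]
    · rwa [NN_conj]
  | inv_mul_cancel a ha θ _ ih =>
    rcases ha with (rfl | rfl) | ⟨y, rfl⟩
    · rw [NN_mul _ _ tinfH fun _ => rfl]
      exact ih.iso (move inv_TF (hom_tinfH ▸ half_TF) (hom_tinfI ▸ half_TFi) keep_TF keep_TFi
        e4 (zeta_NN θ))
    · rw [NN_mul _ _ (tauH.comp tauH) fun _ => rfl]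
      refine ih.iso (move hi.symm hf' hf k' k ?_ (zeta_NN θ))
      rw [MonoidHom.comp_assoc, ← MonoidHom.comp_assoc tauI, e2, MonoidHom.id_comp, e2]
    · rwa [← map_inv, NN_conj]

theorem partII : PartII := by
  intro θ hθ
  have hs : Function.Surjective (r0.comp (θ⁻¹ : MulAut (S 2)).toMonoidHom) :=
    r0_surj.comp (θ⁻¹ : MulAut (S 2)).surjective
  refine ⟨isTri_TT hs fun x hx => ?_, ?_⟩
  · have := r0.map_isConj (slope_phi (inv_mem hθ) x)
    rw [r0_phi ((θ⁻¹ : MulAut (S 2)) x) hx] at this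
    exact isConj_one_right.1 this
  · rw [TT_eq hs]
    exact (stab2_eq (zeta_NN θ)).symm ▸ std_NN hθ

end Pool.Agent.MP_7ebdba_gt.SS
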