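import Mathlib
import Pool.Agent.MP_7ebdba_gt.ss.Core

/-! Triples of subgroups of the free group, stabilisation and equivalence at the free level. -/

namespace Pool.Agent.MP_7ebdba_gt.SS

open Subgroup

/-- The triple in the surface group given by three subgroups of the free group. -/
def mt {g : ℕ} (K : Fin 3 → Subgroup (F g)) : Tri g := fun i => (K i).map (mk g)

/-- One stabilisation of one kernel, at the free level. -/
def up {g : ℕ} (K : Subgroup (F g)) (c : Bool) : Subgroup (F (g + 1)) :=
  normalClosure (incl g '' (K : Set (F g)) ∪ {FreeGroup.of (Fin.last g, c)})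

instance up_normal {g : ℕ} (K : Subgroup (F g)) (c : Bool) : (up K c).Normal :=
  normalClosure_normal

theorem incl_mem_up {g : ℕ} {K : Subgroup (F g)} (c : Bool) {w : F g} (h : w ∈ K) :
    incl g w ∈ up K c := subset_normalClosure (Or.inl ⟨w, h, rfl⟩)

theorem last_mem_up {g : ℕ} (K : Subgroup (F g)) (c : Bool) :
    FreeGroup.of (Fin.last g, c) ∈ up K c := subset_normalClosure (Or.inr rfl)

theorem up_le {g : ℕ} {K : Subgroup (F g)} {c : Bool} {M : Subgroup (F (g + 1))} [M.Normal]
    (h1 : ∀ w ∈ K, incl g w ∈ M) (h2 : FreeGroup.of (Fin.last g, c) ∈ M) : up K c ≤ M := by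
  refine normalClosure_le_normal ?_
  rintro _ (⟨w, hw, rfl⟩ | rfl)
  exacts [h1 w hw, h2]

theorem rel_succ (g : ℕ) : rel (g + 1) = incl g (rel g) *
    (FreeGroup.of (Fin.last g, false) * FreeGroup.of (Fin.last g, true) *
      (FreeGroup.of (Fin.last g, false))⁻¹ * (FreeGroup.of (Fin.last g, true))⁻¹) := by
  unfold rel
  rw [List.ofFn_succ', List.concat_eq_append, List.prod_append, map_list_prod, List.map_ofFn]
  simp only [List.prod_cons, List.prod_nil, mul_one]
  congr 2

theorem rel_mem_up {g : ℕ} {K : Subgroup (F g)} (c : Bool) (h : rel g ∈ K) :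
    rel (g + 1) ∈ up K c := by
  rw [rel_succ]
  refine mul_mem (incl_mem_up c h) ?_
  have h2 := last_mem_up K c
  cases c
  · rw [mul_assoc, mul_assoc]
    refine mul_mem h2 ?_
    rw [← mul_assoc]
    exact (up_normal K false).conj_mem _ (inv_mem h2) _
  · exact mul_mem ((up_normal K true).conj_mem _ h2 _) (inv_mem h2)

theorem stab_mt {g : ℕ} (K : Fin 3 → Subgroup (F g)) (hn : ∀ i, (K i).Normal)
    (hr : ∀ i, rel g ∈ K i) (j : Fin 3) :
    stab (mt K) j = mt fun i => up (K i) (decide (i = j)) := by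
  funext i
  have h : ((K i).map (mk g)).comap (mk g) = K i := by
    refine comap_map_eq_self fun w hw => ?_
    have := hn i
    exact normalClosure_le_normal (N := K i) (by simpa using hr i) (mk_eq_one.1 hw)
  simp only [stab, mt, up]
  rw [h, map_normalClosure _ _ (mk_surjective _), Set.image_union, Set.image_singleton,
    Set.image_image, coe_map]
  rfl

theorem iso_mt {g : ℕ} {K K' : Fin 3 → Subgroup (F g)} (f f' : F g →* F g)
    (h1 : f.comp f' = MonoidHom.id _) (h2 : f'.comp f = MonoidHom.id _) (hr : f (rel g) = rel g)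
    (hf : ∀ i, ∀ w ∈ K i, f w ∈ K' i) (hf' : ∀ i, ∀ w ∈ K' i, f' w ∈ K i) :
    Iso (mt K) (mt K') := by
  refine ⟨ind (MonoidHom.toMulEquiv f f' h2 h1) hr, 1, fun i => le_antisymm ?_ ?_⟩
  · rintro _ ⟨_, ⟨w, hw, rfl⟩, rfl⟩
    exact ⟨f w, hf i w hw, rfl⟩
  · rintro _ ⟨w, hw, rfl⟩
    refine ⟨_, ⟨f' w, hf' i w hw, rfl⟩, ?_⟩
    exact congrArg (mk g) (DFunLike.congr_fun h1 w)

theorem up_ker {g : ℕ} {p : F g →* F g} {p' : F (g + 1) →* F (g + 1)} {c : Bool}
    (hp : ∀ x, p (p (FreeGroup.of x)) = p (FreeGroup.of x))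
    (h1 : ∀ x, p' (incl g (FreeGroup.of x)) = incl g (p (FreeGroup.of x)))
    (h2 : p' (FreeGroup.of (Fin.last g, c)) = 1)
    (h3 : p' (FreeGroup.of (Fin.last g, !c)) = FreeGroup.of (Fin.last g, !c)) :
    up p.ker c = p'.ker := by
  have h1' : p'.comp (incl g) = (incl g).comp p := FreeGroup.ext_hom _ _ h1
  refine le_antisymm (up_le (fun w hw => ?_) h2) fun w hw => ?_
  · have := DFunLike.congr_fun h1' w
    rw [MonoidHom.comp_apply, MonoidHom.comp_apply, MonoidHom.mem_ker.1 hw, map_one] at this
    exact this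
  · have h : (QuotientGroup.mk' (up p.ker c)).comp p' = QuotientGroup.mk' (up p.ker c) := by
      refine FreeGroup.ext_hom _ _ ?_
      rintro ⟨i, b⟩
      rw [MonoidHom.comp_apply]
      refine QuotientGroup.eq.2 ?_
      induction i using Fin.lastCases with
      | last =>
        by_cases hb : b = c
        · rw [hb, h2, inv_one, one_mul]
          exact last_mem_up _ _
        · obtain rfl : b = !c := by cases b <;> cases c <;> simp_all
          rw [h3, inv_mul_cancel]
          exact one_mem _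
      | cast i =>
        have e : (FreeGroup.of (i.castSucc, b) : F (g + 1)) = incl g (FreeGroup.of (i, b)) := rfl
        rw [e, h1, ← map_inv, ← map_mul]
        refine incl_mem_up c ?_
        rw [MonoidHom.mem_ker, map_mul, map_inv, hp, inv_mul_cancel]
    have := DFunLike.congr_fun h w
    rw [MonoidHom.comp_apply, MonoidHom.mem_ker.1 hw, map_one] at this
    exact (QuotientGroup.eq_one_iff w).1 this.symm

theorem ker_eq_map {g : ℕ} {H : Type*} [Group H] (ψ : S g →* H) :
    ψ.ker = (ψ.comp (mk g)).ker.map (mk g) := by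
  rw [← MonoidHom.comap_ker, map_comap_eq_self_of_surjective (mk_surjective g)]

/-- The kernel of the double, at the free level. -/
def D (N : Subgroup (F 2)) : Subgroup (F 4) :=
  normalClosure (iotF false '' (N : Set (F 2)) ∪ iotF true '' (N : Set (F 2)))

instance D_normal (N : Subgroup (F 2)) : (D N).Normal := normalClosure_normal

theorem mem_D {N : Subgroup (F 2)} (c : Bool) {w : F 2} (h : w ∈ N) : iotF c w ∈ D N := by
  cases c
  exacts [subset_normalClosure (Or.inl ⟨w, h, rfl⟩), subset_normalClosure (Or.inr ⟨w, h, rfl⟩)]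

theorem of_eq_iotF : ∀ y : Fin 4 × Bool, ∃ c x, FreeGroup.of y = iotF c (FreeGroup.of x) := by
  decide +kernel

theorem dbl_iot (r : S 2 →* F2) (w : F 2) :
    dbl r (iot false w) = Monoid.Coprod.inl (r (mk 2 w)) ∧
      dbl r (iot true w) = Monoid.Coprod.inr (r (mk 2 w)) :=
  ⟨glue_false _ _ _ w, glue_true _ _ _ w⟩

theorem exists_sec {r : S 2 →* F2} (hr : Function.Surjective r) :
    ∃ s : F2 →* F 2, ∀ y, r (mk 2 (s y)) = y := by
  choose t ht using hr.comp (mk_surjective 2)
  have : (r.comp (mk 2)).comp (FreeGroup.lift fun k => t (FreeGroup.of k)) = MonoidHom.id _ :=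
    FreeGroup.ext_hom _ _ fun k => by simpa using ht _
  exact ⟨_, DFunLike.congr_fun this⟩

theorem ker_dbl {r : S 2 →* F2} (hr : Function.Surjective r) :
    ((dbl r).comp (mk 4)).ker = D (r.comp (mk 2)).ker := by
  obtain ⟨s, hs⟩ := exists_sec hr
  refine le_antisymm (fun w hw => ?_) (normalClosure_le_normal ?_)
  · set q := QuotientGroup.mk' (D (r.comp (mk 2)).ker) with hq
    have key : ∀ c x, q (iotF c (s (r (mk 2 x)))) = q (iotF c x) := fun c x => by
      refine QuotientGroup.eq.2 ?_
      rw [← map_inv, ← map_mul]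
      refine mem_D c ?_
      simp [MonoidHom.mem_ker, hs]
    have h : (Monoid.Coprod.lift (q.comp ((iotF false).comp s)) (q.comp ((iotF true).comp s))).comp
        ((dbl r).comp (mk 4)) = q := by
      refine FreeGroup.ext_hom _ _ fun y => ?_
      obtain ⟨c, x, e⟩ := of_eq_iotF y
      rw [e, ← key]
      cases c
      · rw [MonoidHom.comp_apply, show ((dbl r).comp (mk 4)) (iotF false (FreeGroup.of x)) = _ from
          (dbl_iot r (FreeGroup.of x)).1, Monoid.Coprod.lift_apply_inl]
        rfl
      · rw [MonoidHom.comp_apply, show ((dbl r).comp (mk 4)) (iotF true (FreeGroup.of x)) = _ from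
          (dbl_iot r (FreeGroup.of x)).2, Monoid.Coprod.lift_apply_inr]
        rfl
    have := DFunLike.congr_fun h w
    rw [MonoidHom.comp_apply, MonoidHom.mem_ker.1 hw, map_one] at this
    exact (QuotientGroup.eq_one_iff w).1 this.symm
  · rintro _ (⟨w, hw, rfl⟩ | ⟨w, hw, rfl⟩)
    · exact (dbl_iot r w).1.trans (by rw [show r (mk 2 w) = 1 from hw, map_one])
    · exact (dbl_iot r w).2.trans (by rw [show r (mk 2 w) = 1 from hw, map_one])

theorem ker_fold (θ : F 2 ≃* F 2) (h : θ zeta = zeta) (p : F 4 →* F 4)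
    (hp : ∀ x, iotF false (glueF (MonoidHom.id _) θ.toMonoidHom (FreeGroup.of x)) =
      p (FreeGroup.of x)) : ((fold θ h).comp (mk 4)).ker = p.ker := by
  have e : (iotF false).comp (glueF (MonoidHom.id _) θ.toMonoidHom) = p :=
    FreeGroup.ext_hom _ _ hp
  rw [← e, MonoidHom.ker_comp_of_injective _ (iotF false) (Function.LeftInverse.injective
    (g := glueF (MonoidHom.id _) θ.toMonoidHom) fun w => glueF_false _ _ w)]
  rfl

end Pool.Agent.MP_7ebdba_gt.SS
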