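import Pool.Agent.MP_7ebdba_gt.ss.Data

/-! Reflective checks of the factors. -/

namespace Pool.Agent.MP_7ebdba_gt.SS

theorem half_A5 : Half (hom 6 6 tA5) (hom 2 2 (idT 2)) :=
  half_of_chk (w0 := []) (w1 := [])
    (l0 := [[], [], [], []])
    (l1 := [[], [], [], []])
    (l5 := []) (l6 := []) (by decide +kernel)

theorem half_A5i : Half (hom 6 6 tA5i) (hom 2 2 (idT 2)) :=
  half_of_chk (w0 := []) (w1 := [])
    (l0 := [[], [], [], []])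
    (l1 := [[], [], [], []])
    (l5 := []) (l6 := []) (by decide +kernel)

theorem half_A6 : Half (hom 6 6 tA6) (hom 2 2 (idT 2)) :=
  half_of_chk (w0 := []) (w1 := [])
    (l0 := [[], [], [], []])
    (l1 := [[], [], [], []])
    (l5 := []) (l6 := []) (by decide +kernel)

theorem half_A6i : Half (hom 6 6 tA6i) (hom 2 2 (idT 2)) :=
  half_of_chk (w0 := []) (w1 := [])
    (l0 := [[], [], [], []])
    (l1 := [[], [], [], []])
    (l5 := []) (l6 := []) (by decide +kernel)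

theorem half_TT : Half (hom 6 6 tTT) (hom 2 2 tauIt) :=
  half_of_chk (w0 := [6, 4, 7, 0, 3, 1]) (w1 := [6, 4, 7, 0, 3, 1])
    (l0 := [[(0, 3, 0), (10, 3, 0), (7, 0, 3), (21, 2, 0)], [(0, 3, 0), (15, 2, 0), (12, 1, 3),
    (22, 3, 0), (19, 0, 3), (33, 2, 0)], [(0, 3, 0), (15, 2, 0), (12, 1, 3), (24, 3, 0), (21, 0,
    3), (35, 2, 0)], [(0, 3, 0), (12, 3, 0), (9, 0, 3), (23, 2, 0)]])
    (l1 := [[(0, 3, 0), (21, 2, 0)], [(0, 3, 0), (33, 2, 0)], [(0, 3, 0), (35, 2, 0)], [(0, 3, 0),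
    (23, 2, 0)]])
    (l5 := []) (l6 := []) (by decide +kernel)

theorem half_TTi : Half (hom 6 6 tTTi) (hom 2 2 tauHt) :=
  half_of_chk (w0 := [0, 2, 1, 6, 5, 7]) (w1 := [0, 2, 1, 6, 5, 7])
    (l0 := [[(6, 2, 0), (12, 2, 0), (9, 1, 3), (17, 3, 0)], [(6, 2, 0), (15, 3, 0), (12, 0, 3),
    (24, 2, 0), (21, 1, 3), (29, 3, 0)], [(6, 2, 0), (15, 3, 0), (12, 0, 3), (22, 2, 0), (19, 1,
    3), (27, 3, 0)], [(6, 2, 0), (10, 2, 0), (7, 1, 3), (15, 3, 0)]])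
    (l1 := [[(6, 2, 0), (16, 3, 7)], [(6, 2, 0), (28, 3, 7)], [(6, 2, 0), (26, 3, 7)], [(6, 2, 0),
    (14, 3, 7)]])
    (l5 := []) (l6 := []) (by decide +kernel)

theorem half_Pa : Half (hom 6 6 tPa) (hom 2 2 (idT 2)) :=
  half_of_chk (w0 := []) (w1 := [17])
    (l0 := [[], [], [], []])
    (l1 := [[], [], [], []])
    (l5 := [(1, 2, 0)]) (l6 := []) (by decide +kernel)

theorem half_Pai : Half (hom 6 6 tPai) (hom 2 2 (idT 2)) :=
  half_of_chk (w0 := []) (w1 := [16])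
    (l0 := [[], [], [], []])
    (l1 := [[(0, 2, 0), (1, 3, 0), (2, 2, 0), (3, 3, 0)], [(0, 2, 0), (1, 3, 0), (2, 2, 0), (3, 3,
    0)], [(0, 2, 0), (1, 3, 0), (2, 2, 0), (3, 3, 0)], [(0, 2, 0), (1, 3, 0), (2, 2, 0), (3, 3,
    0)]])
    (l5 := [(0, 3, 0)]) (l6 := []) (by decide +kernel)

theorem half_Pb : Half (hom 6 6 tPb) (hom 2 2 (idT 2)) :=
  half_of_chk (w0 := []) (w1 := [6, 0, 3, 1, 20, 0, 2, 1, 7])
    (l0 := [[(5, 3, 0), (4, 2, 0), (9, 3, 0), (2, 2, 0), (5, 3, 0), (6, 2, 0)], [(5, 3, 0), (4, 2,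
    0), (1, 3, 0), (8, 2, 0), (9, 3, 0), (2, 2, 0), (5, 3, 0), (6, 2, 0)], [(5, 3, 0), (4, 2, 0),
    (1, 3, 0), (8, 2, 0), (5, 3, 0), (6, 2, 0)], [(5, 3, 0), (4, 2, 0), (5, 3, 0), (6, 2, 0)]])
    (l1 := [[(5, 3, 0), (4, 2, 0), (0, 3, 0), (9, 2, 0), (10, 3, 0), (19, 2, 0), (23, 3, 0), (24,
    2, 0)], [(5, 3, 0), (4, 2, 0), (0, 3, 0), (9, 2, 0), (10, 3, 0), (19, 2, 0), (23, 3, 0), (24,
    2, 0)], [(5, 3, 0), (4, 2, 0), (0, 3, 0), (9, 2, 0), (10, 3, 0), (19, 2, 0), (23, 3, 0), (24,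
    2, 0)], [(5, 3, 0), (4, 2, 0), (0, 3, 0), (9, 2, 0), (10, 3, 0), (19, 2, 0), (23, 3, 0), (24,
    2, 0)]])
    (l5 := []) (l6 := [(5, 3, 0), (4, 3, 0), (5, 2, 0)]) (by decide +kernel)

theorem half_Pbi : Half (hom 6 6 tPbi) (hom 2 2 (idT 2)) :=
  half_of_chk (w0 := []) (w1 := [6, 0, 3, 1, 21, 0, 2, 1, 7])
    (l0 := [[(4, 2, 0), (5, 3, 0), (2, 2, 0), (9, 3, 0), (6, 2, 0), (5, 3, 0)], [(4, 2, 0), (5, 3,
    0), (8, 2, 0), (1, 3, 0), (2, 2, 0), (9, 3, 0), (6, 2, 0), (5, 3, 0)], [(4, 2, 0), (5, 3, 0),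
    (8, 2, 0), (1, 3, 0), (6, 2, 0), (5, 3, 0)], [(4, 2, 0), (5, 3, 0), (6, 2, 0), (5, 3, 0)]])
    (l1 := [[(4, 2, 0), (5, 3, 0), (24, 2, 0), (23, 3, 0)], [(4, 2, 0), (5, 3, 0), (24, 2, 0),
    (23, 3, 0)], [(4, 2, 0), (5, 3, 0), (24, 2, 0), (23, 3, 0)], [(4, 2, 0), (5, 3, 0), (24, 2,
    0), (23, 3, 0)]])
    (l5 := []) (l6 := [(4, 2, 0), (5, 2, 0), (4, 3, 0)]) (by decide +kernel)

theorem half_Pc : Half (hom 6 6 tPc) (hom 2 2 (idT 2)) :=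
  half_of_chk (w0 := []) (w1 := [6, 4, 7, 5, 1, 16, 0, 4, 6, 5, 7])
    (l0 := [[(6, 3, 0), (5, 2, 0), (6, 3, 0), (7, 2, 0)], [(6, 3, 0), (5, 2, 0), (4, 3, 0), (7, 2,
    0), (6, 3, 0), (7, 2, 0)], [(6, 3, 0), (5, 2, 0), (6, 3, 0), (7, 2, 0)], [(6, 3, 0), (5, 2,
    0), (6, 3, 0), (7, 2, 0)]])
    (l1 := [[(6, 3, 0), (5, 2, 0), (0, 3, 0), (11, 2, 0), (12, 3, 0), (23, 2, 0), (19, 1, 4), (21,
    1, 5), (24, 3, 0), (21, 0, 3), (29, 2, 0), (19, 0, 4)], [(6, 3, 0), (5, 2, 0), (0, 3, 0), (11,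
    2, 0), (12, 3, 0), (23, 2, 0), (19, 1, 4), (21, 1, 5), (24, 3, 0), (21, 0, 3), (29, 2, 0),
    (19, 0, 4)], [(6, 3, 0), (5, 2, 0), (0, 3, 0), (11, 2, 0), (12, 3, 0), (23, 2, 0), (19, 1, 4),
    (21, 1, 5), (24, 3, 0), (21, 0, 3), (29, 2, 0), (19, 0, 4)], [(6, 3, 0), (5, 2, 0), (0, 3, 0),
    (11, 2, 0), (12, 3, 0), (23, 2, 0), (19, 1, 4), (21, 1, 5), (24, 3, 0), (21, 0, 3), (29, 2,
    0), (19, 0, 4)]])
    (l5 := [(6, 3, 0), (5, 3, 0), (6, 2, 0)]) (l6 := []) (by decide +kernel)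

theorem half_Pci : Half (hom 6 6 tPci) (hom 2 2 (idT 2)) :=
  half_of_chk (w0 := []) (w1 := [6, 4, 7, 5, 1, 17, 0, 4, 6, 5, 7])
    (l0 := [[(5, 2, 0), (6, 3, 0), (7, 2, 0), (6, 3, 0)], [(5, 2, 0), (6, 3, 0), (7, 2, 0), (4, 3,
    0), (7, 2, 0), (6, 3, 0)], [(5, 2, 0), (6, 3, 0), (7, 2, 0), (6, 3, 0)], [(5, 2, 0), (6, 3,
    0), (7, 2, 0), (6, 3, 0)]])
    (l1 := [[(5, 2, 0), (6, 3, 0), (29, 2, 0), (19, 1, 4), (21, 1, 5), (24, 3, 0), (21, 0, 3),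
    (19, 0, 4)], [(5, 2, 0), (6, 3, 0), (29, 2, 0), (19, 1, 4), (21, 1, 5), (24, 3, 0), (21, 0,
    3), (19, 0, 4)], [(5, 2, 0), (6, 3, 0), (29, 2, 0), (19, 1, 4), (21, 1, 5), (24, 3, 0), (21,
    0, 3), (19, 0, 4)], [(5, 2, 0), (6, 3, 0), (29, 2, 0), (19, 1, 4), (21, 1, 5), (24, 3, 0),
    (21, 0, 3), (19, 0, 4)]])
    (l5 := [(5, 2, 0), (6, 2, 0), (5, 3, 0)]) (l6 := []) (by decide +kernel)

theorem half_Pd : Half (hom 6 6 tPd) (hom 2 2 (idT 2)) :=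
  half_of_chk (w0 := []) (w1 := [21])
    (l0 := [[], [], [], []])
    (l1 := [[], [], [], []])
    (l5 := []) (l6 := [(1, 2, 0)]) (by decide +kernel)

theorem half_Pdi : Half (hom 6 6 tPdi) (hom 2 2 (idT 2)) :=
  half_of_chk (w0 := []) (w1 := [20])
    (l0 := [[], [], [], []])
    (l1 := [[(0, 2, 0), (1, 3, 0), (2, 2, 0), (3, 3, 0)], [(0, 2, 0), (1, 3, 0), (2, 2, 0), (3, 3,
    0)], [(0, 2, 0), (1, 3, 0), (2, 2, 0), (3, 3, 0)], [(0, 2, 0), (1, 3, 0), (2, 2, 0), (3, 3,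
    0)]])
    (l5 := []) (l6 := [(0, 3, 0)]) (by decide +kernel)

theorem half_TF : Half (hom 6 6 tTF) (hom 2 2 tinfHt) :=
  half_of_chk (w0 := []) (w1 := [])
    (l0 := [[], [], [], []])
    (l1 := [[], [], [], []])
    (l5 := []) (l6 := []) (by decide +kernel)

theorem half_TFi : Half (hom 6 6 tTFi) (hom 2 2 tinfIt) :=
  half_of_chk (w0 := []) (w1 := [])
    (l0 := [[], [], [], []])
    (l1 := [[], [], [], []])
    (l5 := []) (l6 := []) (by decide +kernel)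

theorem inv_A5 : Inv (hom 6 6 tA5) (hom 6 6 tA5i) := inv_of_chk (by decide +kernel)

theorem inv_A6 : Inv (hom 6 6 tA6) (hom 6 6 tA6i) := inv_of_chk (by decide +kernel)

theorem inv_TT : Inv (hom 6 6 tTT) (hom 6 6 tTTi) := inv_of_chk (by decide +kernel)

theorem inv_Pa : Inv (hom 6 6 tPa) (hom 6 6 tPai) := inv_of_chk (by decide +kernel)

theorem inv_Pb : Inv (hom 6 6 tPb) (hom 6 6 tPbi) := inv_of_chk (by decide +kernel)

theorem inv_Pc : Inv (hom 6 6 tPc) (hom 6 6 tPci) := inv_of_chk (by decide +kernel)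

theorem inv_Pd : Inv (hom 6 6 tPd) (hom 6 6 tPdi) := inv_of_chk (by decide +kernel)

theorem inv_TF : Inv (hom 6 6 tTF) (hom 6 6 tTFi) := inv_of_chk (by decide +kernel)

theorem stf1 : ∀ w ∈ (hom 6 6 psf1).ker, hom 6 6 tA6i w ∈ (hom 6 6 p36).ker :=
  ker_step (b := bef1) (by decide +kernel) (by decide +kernel) (by decide +kernel)

theorem stf2 : ∀ w ∈ (hom 6 6 psf2).ker, hom 6 6 tA5i w ∈ (hom 6 6 psf1).ker :=
  ker_step (b := bef2) (by decide +kernel) (by decide +kernel) (by decide +kernel)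

theorem stf3 : ∀ w ∈ (hom 6 6 psf3).ker, hom 6 6 tTT w ∈ (hom 6 6 psf2).ker :=
  ker_step (b := bef3) (by decide +kernel) (by decide +kernel) (by decide +kernel)

theorem stf4 : ∀ w ∈ (hom 6 6 psf4).ker, hom 6 6 tTT w ∈ (hom 6 6 psf3).ker :=
  ker_step (b := bef4) (by decide +kernel) (by decide +kernel) (by decide +kernel)

theorem stf5 : ∀ w ∈ (hom 6 6 psf5).ker, hom 6 6 tPc w ∈ (hom 6 6 psf4).ker :=
  ker_step (b := bef5) (by decide +kernel) (by decide +kernel) (by decide +kernel)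

theorem stf6 : ∀ w ∈ (hom 6 6 psf6).ker, hom 6 6 tPd w ∈ (hom 6 6 psf5).ker :=
  ker_step (b := bef6) (by decide +kernel) (by decide +kernel) (by decide +kernel)

theorem stf7 : ∀ w ∈ (hom 6 6 psf7).ker, hom 6 6 tPbi w ∈ (hom 6 6 psf6).ker :=
  ker_step (b := bef7) (by decide +kernel) (by decide +kernel) (by decide +kernel)

theorem stf8 : ∀ w ∈ (hom 6 6 psf8).ker, hom 6 6 tPai w ∈ (hom 6 6 psf7).ker :=
  ker_step (b := bef8) (by decide +kernel) (by decide +kernel) (by decide +kernel)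

theorem stf9 : ∀ w ∈ (hom 6 6 psf9).ker, hom 6 6 tA5 w ∈ (hom 6 6 psf8).ker :=
  ker_step (b := bef9) (by decide +kernel) (by decide +kernel) (by decide +kernel)

theorem stf10 : ∀ w ∈ (hom 6 6 p36).ker, hom 6 6 tA6 w ∈ (hom 6 6 psf9).ker :=
  ker_step (b := (cmp psf9 tA6)) (by decide +kernel) (by decide +kernel) (by decide +kernel)

theorem stb1 : ∀ w ∈ (hom 6 6 psb1).ker, hom 6 6 tA6i w ∈ (hom 6 6 p36).ker :=
  ker_step (b := beb1) (by decide +kernel) (by decide +kernel) (by decide +kernel)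

theorem stb2 : ∀ w ∈ (hom 6 6 psb2).ker, hom 6 6 tA5i w ∈ (hom 6 6 psb1).ker :=
  ker_step (b := beb2) (by decide +kernel) (by decide +kernel) (by decide +kernel)

theorem stb3 : ∀ w ∈ (hom 6 6 psb3).ker, hom 6 6 tPa w ∈ (hom 6 6 psb2).ker :=
  ker_step (b := beb3) (by decide +kernel) (by decide +kernel) (by decide +kernel)

theorem stb4 : ∀ w ∈ (hom 6 6 psb4).ker, hom 6 6 tPb w ∈ (hom 6 6 psb3).ker :=
  ker_step (b := beb4) (by decide +kernel) (by decide +kernel) (by decide +kernel)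

theorem stb5 : ∀ w ∈ (hom 6 6 psb5).ker, hom 6 6 tPdi w ∈ (hom 6 6 psb4).ker :=
  ker_step (b := beb5) (by decide +kernel) (by decide +kernel) (by decide +kernel)

theorem stb6 : ∀ w ∈ (hom 6 6 psb6).ker, hom 6 6 tPci w ∈ (hom 6 6 psb5).ker :=
  ker_step (b := beb6) (by decide +kernel) (by decide +kernel) (by decide +kernel)

theorem stb7 : ∀ w ∈ (hom 6 6 psb7).ker, hom 6 6 tTTi w ∈ (hom 6 6 psb6).ker :=
  ker_step (b := beb7) (by decide +kernel) (by decide +kernel) (by decide +kernel)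

theorem stb8 : ∀ w ∈ (hom 6 6 psb8).ker, hom 6 6 tTTi w ∈ (hom 6 6 psb7).ker :=
  ker_step (b := beb8) (by decide +kernel) (by decide +kernel) (by decide +kernel)

theorem stb9 : ∀ w ∈ (hom 6 6 psb9).ker, hom 6 6 tA5 w ∈ (hom 6 6 psb8).ker :=
  ker_step (b := beb9) (by decide +kernel) (by decide +kernel) (by decide +kernel)

theorem stb10 : ∀ w ∈ (hom 6 6 p36).ker, hom 6 6 tA6 w ∈ (hom 6 6 psb9).ker :=
  ker_step (b := (cmp psb9 tA6)) (by decide +kernel) (by decide +kernel) (by decide +kernel)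

theorem keep_TF : Keep3 (hom 6 6 tTF) :=
  ker_step (b := cmp p36 tTF) (by decide +kernel) (by decide +kernel) (by decide +kernel)

theorem keep_TFi : Keep3 (hom 6 6 tTFi) :=
  ker_step (b := cmp p36 tTFi) (by decide +kernel) (by decide +kernel) (by decide +kernel)

end Pool.Agent.MP_7ebdba_gt.SS
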