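import Pool.Agent.MP_7ebdba_gt.ss.Alg

/-! The twice stabilised triples and the moves between them. -/

namespace Pool.Agent.MP_7ebdba_gt.SS

open Subgroup

def p24 : List (List ℕ) := [[0], [2], [4], [6], [6], [4], [2], [0]]
def p34 : List (List ℕ) := [[0], [2], [4], [6], [6, 4, 7], [4, 7], [2, 1], [0, 2, 1]]
def p25 : List (List ℕ) := p24 ++ [[], [18]]
def p35 : List (List ℕ) := p34 ++ [[], [18]]
def p26 : List (List ℕ) := p25 ++ [[], [22]]
def p36 : List (List ℕ) := p35 ++ [[], [22]]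

/-- The first kernel after two stabilisations. -/
def K1 (N : Subgroup (F 2)) : Subgroup (F 6) := up (up (D N) true) true

instance K1_normal (N : Subgroup (F 2)) : (K1 N).Normal := up_normal _ _

/-- The genus four triple at the free level. -/
def T4 (N : Subgroup (F 2)) : Fin 3 → Subgroup (F 4) :=
  ![D N, (hom 4 4 p24).ker, (hom 4 4 p34).ker]

/-- The genus six triple at the free level. -/
def T6 (N : Subgroup (F 2)) : Fin 3 → Subgroup (F 6) :=
  ![K1 N, (hom 6 6 p26).ker, (hom 6 6 p36).ker]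

theorem TT_eq {r : S 2 →* F2} (hr : Function.Surjective r) :
    TT r = mt (T4 (r.comp (mk 2)).ker) := by
  funext i
  fin_cases i
  · exact (ker_eq_map _).trans (congrArg _ (ker_dbl hr))
  · exact (ker_eq_map _).trans (congrArg _ (ker_fold _ _ _ (by decide +kernel)))
  · exact (ker_eq_map _).trans (congrArg _ (ker_fold _ _ _ (by decide +kernel)))

theorem T4_normal (N : Subgroup (F 2)) (i : Fin 3) : (T4 N i).Normal := by
  fin_cases i
  exacts [D_normal N, MonoidHom.normal_ker _, MonoidHom.normal_ker _]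

theorem T4_rel {N : Subgroup (F 2)} (hN : zeta ∈ N) (i : Fin 3) : rel 4 ∈ T4 N i := by
  fin_cases i
  · rw [rel4_eq]
    exact mul_mem (mem_D false hN) (inv_mem (mem_D true hN))
  · exact MonoidHom.mem_ker.2 (by decide +kernel)
  · exact MonoidHom.mem_ker.2 (by decide +kernel)

theorem stab2_eq {N : Subgroup (F 2)} (hN : zeta ∈ N) :
    stab (stab (mt (T4 N)) 0) 0 = mt (T6 N) := by
  rw [stab_mt _ (T4_normal N) (T4_rel hN),
    stab_mt _ (fun _ => up_normal _ _) fun i => rel_mem_up _ (T4_rel hN i)]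
  congr 1
  funext i
  fin_cases i
  · rfl
  · exact (congrArg (up · false) (up_ker (p := hom 4 4 p24) (p' := hom 5 5 p25) (c := false)
      (by decide +kernel) (by decide +kernel) (by decide +kernel) (by decide +kernel))).trans
      (up_ker (p' := hom 6 6 p26)
        (by decide +kernel) (by decide +kernel) (by decide +kernel) (by decide +kernel))
  · exact (congrArg (up · false) (up_ker (p := hom 4 4 p34) (p' := hom 5 5 p35) (c := false)
      (by decide +kernel) (by decide +kernel) (by decide +kernel) (by decide +kernel))).trans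
      (up_ker (p' := hom 6 6 p36)
        (by decide +kernel) (by decide +kernel) (by decide +kernel) (by decide +kernel))

/-- The tables of the two inclusions of the fibre group. -/
def jt (c : Bool) : List (List ℕ) := bif c then [[14], [12], [10], [8]] else [[0], [2], [4], [6]]

theorem hom_jt (c : Bool) : hom 2 6 (jt c) = (incl 5).comp ((incl 4).comp (iotF c)) := by
  cases c <;> exact FreeGroup.ext_hom _ _ (by decide +kernel)

theorem jt_mem {N : Subgroup (F 2)} (c : Bool) {w : F 2} (h : w ∈ N) :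
    hom 2 6 (jt c) w ∈ K1 N := by
  rw [hom_jt]
  exact incl_mem_up _ (incl_mem_up _ (mem_D c h))

theorem b5_mem (N : Subgroup (F 2)) : gen 6 9 ∈ K1 N := incl_mem_up _ (last_mem_up (D N) true)

theorem b6_mem (N : Subgroup (F 2)) : gen 6 11 ∈ K1 N := last_mem_up _ true

theorem K1_le {N : Subgroup (F 2)} {M : Subgroup (F 6)} [M.Normal]
    (h : ∀ c, ∀ w ∈ N, hom 2 6 (jt c) w ∈ M) (h5 : gen 6 9 ∈ M) (h6 : gen 6 11 ∈ M) :
    K1 N ≤ M := by
  refine up_le (fun w hw => ?_) h6
  refine up_le (M := M.comap (incl 5)) (fun w hw => ?_) h5 hw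
  refine normalClosure_le_normal (N := (M.comap (incl 5)).comap (incl 4)) ?_ hw
  rintro _ (⟨w, hw, rfl⟩ | ⟨w, hw, rfl⟩)
  · have := h false w hw
    rwa [hom_jt] at this
  · have := h true w hw
    rwa [hom_jt] at this

def z0 : List ℕ := [0, 2, 1, 3, 4, 6, 5, 7]
def z0i : List ℕ := [6, 4, 7, 5, 2, 0, 3, 1]
def RR : List (List ℕ) := [z0, z0i, [14, 12, 15, 13, 10, 8, 11, 9], [8, 10, 9, 11, 12, 14, 13, 15]]
def rel6 : List ℕ :=
  [0, 2, 1, 3, 4, 6, 5, 7, 8, 10, 9, 11, 12, 14, 13, 15, 16, 18, 17, 19, 20, 22, 21, 23]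

theorem ev_z0 : ev (gen 2) z0 = zeta := by decide +kernel
theorem ev_rel6 : ev (gen 6) rel6 = rel 6 := by decide +kernel

theorem RR_mem {N : Subgroup (F 2)} (hN : zeta ∈ N) : ∀ r ∈ RR, ev (gen 6) r ∈ K1 N := by
  have h : ∀ r ∈ RR, ∃ c, ev (gen 6) r = hom 2 6 (jt c) zeta ∨
      ev (gen 6) r = hom 2 6 (jt c) zeta⁻¹ := by decide +kernel
  intro r hr
  obtain ⟨c, h | h⟩ := h r hr
  · exact h ▸ jt_mem c hN
  · exact h ▸ jt_mem c (inv_mem hN)

/-- An endomorphism that fixes the relator, keeps the second kernel and acts as `θ` on the first. -/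
structure Half (f : F 6 →* F 6) (θ : F 2 →* F 2) : Prop where
  rl : f (rel 6) = rel 6
  z : θ zeta = zeta
  k2 : ∀ w ∈ (hom 6 6 p26).ker, f w ∈ (hom 6 6 p26).ker
  c : ∀ N : Subgroup (F 2), zeta ∈ N → ∀ w ∈ K1 (N.comap θ), f w ∈ K1 N

theorem Half.comp {f g : F 6 →* F 6} {θ η : F 2 →* F 2} (h : Half f θ) (h' : Half g η) :
    Half (f.comp g) (θ.comp η) where
  rl := by rw [MonoidHom.comp_apply, h'.rl, h.rl]
  z := by rw [MonoidHom.comp_apply, h'.z, h.z]
  k2 w hw := h.k2 _ (h'.k2 w hw)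
  c N hN w hw := h.c N hN _ (h'.c (N.comap θ) (by rwa [mem_comap, h.z]) w hw)

theorem ker_step {g : ℕ} {p f b q : List (List ℕ)} (hp : p.length = 2 * g) (hb : b.length = 2 * g)
    (h : cmp p f = cmp b q) : ∀ w ∈ (hom g g q).ker, hom g g f w ∈ (hom g g p).ker := by
  intro w hw
  have e := congrArg (hom g g) h
  rw [hom_cmp hp, hom_cmp hb] at e
  have := DFunLike.congr_fun e w
  rw [MonoidHom.comp_apply, MonoidHom.comp_apply, MonoidHom.mem_ker.1 hw, map_one] at this
  exact this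

abbrev Cert : Type := List (ℕ × ℕ × ℕ)

noncomputable def chkC (t th : List (List ℕ)) (c : Bool) (w : List ℕ) (ls : List Cert) : Bool :=
  (List.range 4).all fun k =>
    cert RR (cj (del 9 11 ((cmp t (jt c)).getD k [])) w ((cmp (jt c) th).getD k [])) (ls.getD k [])

noncomputable def chkHalf (t th : List (List ℕ)) (w0 w1 : List ℕ) (l0 l1 : List Cert) (l5 l6 : Cert) : Bool :=
  t.length == 12 && th.length == 4 && (subW t [] rel6).reverse == rel6 &&
    (subW th [] z0).reverse == z0 && cmp p26 t == cmp (cmp p26 t) p26 &&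
    chkC t th false w0 l0 && chkC t th true w1 l1 &&
    cert RR (cj (del 9 11 (t.getD 9 [])) [] []) l5 && cert RR (cj (del 9 11 (t.getD 11 [])) [] []) l6

theorem half_of_chk {t th : List (List ℕ)} {w0 w1 : List ℕ} {l0 l1 : List Cert} {l5 l6 : Cert}
    (h : chkHalf t th w0 w1 l0 l1 l5 l6 = true) : Half (hom 6 6 t) (hom 2 2 th) := by
  simp only [chkHalf, Bool.and_eq_true, beq_iff_eq] at h
  obtain ⟨⟨⟨⟨⟨⟨⟨⟨ht, hth⟩, hr⟩, hz⟩, h2⟩, hc0⟩, hc1⟩, h5⟩, h6⟩ := h
  refine ⟨by rw [← ev_rel6, hom_ev ht, hr], by rw [← ev_z0, hom_ev hth, hz],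
    ker_step rfl (by simp [cmp, ht]) h2, fun N hN => ?_⟩
  set q := QuotientGroup.mk' (K1 N) with hq
  have hq1 : ∀ w, q w = 1 ↔ w ∈ K1 N := fun w => QuotientGroup.eq_one_iff w
  have key : ∀ u w v l, cert RR (cj (del 9 11 u) w v) l = true →
      q (ev (gen 6) u) = q (ev (gen 6) w) * q (ev (gen 6) v) * (q (ev (gen 6) w))⁻¹ := by
    intro u w v l hl
    have := ev_cj _ _ _ _ (ev_of_cert (fun k => q (gen 6 k)) RR
      (fun r hr => by rw [← map_ev, hq1]; exact RR_mem hN r hr) _ l hl)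
    rwa [ev_del _ _ _ ((hq1 _).2 (b5_mem N)) ((hq1 _).2 (b6_mem N)), ← map_ev, ← map_ev,
      ← map_ev] at this
  have hc : ∀ c w ls, chkC t th c w ls = true → ∀ x ∈ N.comap (hom 2 2 th),
      hom 2 6 (jt c) x ∈ (K1 N).comap (hom 6 6 t) := by
    intro c w ls hl x hx
    have e : q.comp (hom 2 6 (cmp t (jt c))) =
        (MulAut.conj (q (ev (gen 6) w))).toMonoidHom.comp (q.comp (hom 2 6 (cmp (jt c) th))) := by
      refine FreeGroup.ext_hom _ _ fun y => ?_
      have := key _ _ _ _ (List.all_eq_true.1 hl (num y) (List.mem_range.2 (num_lt y)))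
      simpa [hom_of] using this
    have := DFunLike.congr_fun e x
    rw [hom_cmp (g' := 6) ht, hom_cmp (g' := 2) (by cases c <;> rfl)] at this
    simp only [MonoidHom.comp_apply] at this
    rw [(hq1 _).2 (jt_mem c hx), map_one, hq1] at this
    exact this
  have hb : ∀ k l, cert RR (cj (del 9 11 (t.getD k [])) [] []) l = true →
      gen 6 k ∈ (K1 N).comap (hom 6 6 t) := by
    intro k l hl
    rw [mem_comap, hom_gen ht, ← hq1, key _ _ _ _ hl]
    simp [ev]
  refine fun w hw => K1_le (M := (K1 N).comap (hom 6 6 t)) (fun c => ?_) (hb 9 _ h5) (hb 11 _ h6) hw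
  cases c
  exacts [hc _ _ _ hc0, hc _ _ _ hc1]

/-- Two inverse endomorphisms. -/
structure Inv (f f' : F 6 →* F 6) : Prop where
  a : f.comp f' = MonoidHom.id _
  b : f'.comp f = MonoidHom.id _

theorem Inv.symm {f f' : F 6 →* F 6} (h : Inv f f') : Inv f' f := ⟨h.b, h.a⟩

theorem Inv.comp {f f' g g' : F 6 →* F 6} (h : Inv f f') (h' : Inv g g') :
    Inv (f.comp g) (g'.comp f') where
  a := by rw [MonoidHom.comp_assoc, ← MonoidHom.comp_assoc f', h'.a, MonoidHom.id_comp, h.a]
  b := by rw [MonoidHom.comp_assoc, ← MonoidHom.comp_assoc g, h.b, MonoidHom.id_comp, h'.b]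

noncomputable def chkInv (t u : List (List ℕ)) : Bool :=
  t.length == 12 && u.length == 12 && cmp t u == idT 6 && cmp u t == idT 6

theorem inv_of_chk {t u : List (List ℕ)} (h : chkInv t u = true) :
    Inv (hom 6 6 t) (hom 6 6 u) := by
  simp only [chkInv, Bool.and_eq_true, beq_iff_eq] at h
  obtain ⟨⟨⟨ht, hu⟩, h1⟩, h2⟩ := h
  exact ⟨by rw [← hom_cmp ht, h1, hom_idT], by rw [← hom_cmp hu, h2, hom_idT]⟩

/-- The third kernel is kept. -/
def Keep3 (f : F 6 →* F 6) : Prop := ∀ w ∈ (hom 6 6 p36).ker, f w ∈ (hom 6 6 p36).ker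

theorem move {f f' : F 6 →* F 6} {θ θ' : F 2 →* F 2} (hi : Inv f f') (h : Half f θ)
    (h' : Half f' θ') (h3 : Keep3 f) (h3' : Keep3 f') (e : θ.comp θ' = MonoidHom.id _)
    {N : Subgroup (F 2)} (hN : zeta ∈ N) : Iso (mt (T6 N)) (mt (T6 (N.comap θ))) := by
  refine iso_mt f' f hi.b hi.a h'.rl (fun i => ?_) fun i => ?_
  · fin_cases i
    · intro w hw
      refine h'.c (N.comap θ) (by rwa [mem_comap, h.z]) w ?_
      rwa [comap_comap, e, comap_id]
    · exact h'.k2
    · exact h3'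
  · fin_cases i
    exacts [h.c N hN, h.k2, h3]

end Pool.Agent.MP_7ebdba_gt.SS
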